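import Pool.Agent.Lib.MP_7217b8_al.ConjRep

/-!
Elements of abelian normal subgroups are locally unipotent, first part: the algebraic case.
-/

namespace ConradExt

open Polynomial

variable {Y : Type*} [Group Y]
variable {A : Subgroup Y} {hA : ∀ a ∈ A, ∀ b ∈ A, a * b = b * a}

/-- (8b) -/
theorem pow_unip {M : Type*} [AddCommGroup M] (f : AddMonoid.End M) (j k : ℕ) (m : M)
    (h : ((f - 1) ^ k) m = 0) : ((f ^ j - 1) ^ k) m = 0 := by
  obtain ⟨s, hs⟩ : (X - 1 : ℤ[X]) ∣ X ^ j - 1 := by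
    simpa using sub_dvd_pow_sub_pow (X : ℤ[X]) 1 j
  have h1 : (X ^ j - 1 : ℤ[X]) ^ k = s ^ k * (X - 1) ^ k := by
    rw [hs, mul_pow, mul_comm]
  have h2 := congrArg (aeval f) h1
  simp only [map_pow, map_sub, map_mul, aeval_X, map_one] at h2
  rw [h2]
  change ((aeval f) s ^ k) (((f - 1) ^ k) m) = 0
  rw [h, map_zero]

/-- (8a) -/
theorem unip_of_algebraic [A.Normal] (hC : PropC Y) (hO : PropO Y) (y : Y) (m : AbG A hA)
    (q : ℤ[X]) (hq : q ≠ 0) (h : (aeval (conjRep A hA y) q) m = 0) :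
    ∃ k : ℕ, ((conjRep A hA y - 1) ^ k) m = 0 := by
  obtain ⟨q₁, hq₁, hnd⟩ := exists_eq_pow_rootMultiplicity_mul_and_not_dvd q hq 1
  set k := q.rootMultiplicity 1
  refine ⟨k, ?_⟩
  have hev : q₁.eval 1 ≠ 0 := by
    intro h0
    exact hnd (dvd_iff_isRoot.2 h0)
  set ρ := conjRep A hA with hρ
  set b := ((ρ y - 1) ^ k) m with hb
  have h1 : (aeval (ρ y) q₁) b = 0 := by
    have e : q = q₁ * (X - 1) ^ k := by
      rw [mul_comm]
      simpa using hq₁
    rw [e, map_mul, map_pow, map_sub, aeval_X, map_one] at h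
    exact h
  by_contra hb0
  have hv : b.val ≠ 1 := fun h => hb0 (AbG.val_eq_one.1 h)
  obtain ⟨lo, i1, i2, hcen⟩ := exists_cen hC hO
  obtain ⟨U, hU, hbU, hcomm⟩ := exists_small hcen hv
  have hUN := hU.normal hcen
  -- the subgroup of `A` corresponding to `U`
  let UM : AddSubgroup (AbG A hA) :=
    { carrier := {n | n.val ∈ U}
      zero_mem' := U.one_mem
      add_mem' := fun ha hb => U.mul_mem ha hb
      neg_mem' := fun ha => U.inv_mem ha }
  have key : ∀ r : ℤ[X], (aeval (ρ y) r) b - (r.eval 1) • b ∈ UM := by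
    intro r
    induction r using Polynomial.induction_on' with
    | add p q hp hq =>
      rw [map_add, eval_add, add_smul]
      have := UM.add_mem hp hq
      have e : (aeval (ρ y) p) b - eval 1 p • b + ((aeval (ρ y) q) b - eval 1 q • b) =
        (aeval (ρ y) p + aeval (ρ y) q) b - (eval 1 p • b + eval 1 q • b) := by
        change _ = (aeval (ρ y) p) b + (aeval (ρ y) q) b - _
        abel
      rwa [e] at this
    | monomial n a =>
      rw [aeval_monomial, eval_monomial, one_pow, mul_one]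
      have e : (algebraMap ℤ (AddMonoid.End (AbG A hA)) a * ρ y ^ n) b - a • b =
          a • (ρ (y ^ n) b - b) := by
        rw [smul_sub, map_pow]
        congr 1
      rw [e]
      refine UM.zsmul_mem ?_ a
      change (ρ (y ^ n) b - b).val ∈ U
      rw [hρ, conjRep_sub_val]
      exact hcomm (y ^ n)
  have h2 := UM.neg_mem (key q₁)
  rw [h1, zero_sub, neg_neg] at h2
  have h3 : b.val ^ (q₁.eval 1) ∈ U := by
    rw [← AbG.val_zsmul]
    exact h2
  obtain ⟨P, hP, -⟩ := hU.oConvex hcen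
  obtain ⟨n, hn | hn⟩ := (q₁.eval 1).eq_nat_or_neg
  · rw [hn, zpow_natCast] at h3
    refine hbU (hP.mem_of_pow (Subgroup.mem_top _) (n := n) ?_ h3)
    rcases Nat.eq_zero_or_pos n with h0 | h0
    · rw [h0] at hn
      exact absurd hn hev
    · exact h0
  · rw [hn, zpow_neg, zpow_natCast] at h3
    have h4 := U.inv_mem h3
    rw [inv_inv] at h4
    refine hbU (hP.mem_of_pow (Subgroup.mem_top _) (n := n) ?_ h4)
    rcases Nat.eq_zero_or_pos n with h0 | h0
    · rw [h0] at hn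
      simp only [Nat.cast_zero, neg_zero] at hn
      exact absurd hn hev
    · exact h0

/-- rank one reduction: two elements commensurable with `x` lie in a cyclic group -/
theorem cyclic_reduction {T : Type*} [Group T] (htf : TF T) {x e y : T} {n n' : ℕ} {k k' : ℤ}
    (hn : 0 < n) (hn' : 0 < n') (he : e ^ n = x ^ k) (hy : y ^ n' = x ^ k')
    (hcomm : e * y = y * e) (hy1 : y ≠ 1) :
    ∃ (z : T) (j : ℕ) (l : ℤ) (u v : ℤ), 0 < j ∧ z ^ j = y ∧ z ^ l = e ∧ z = e ^ v * y ^ u := by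
  have hk' : k' ≠ 0 := by
    intro h
    rw [h, zpow_zero] at hy
    exact hy1 (htf y n' hn' hy)
  have hc : Commute e y := hcomm
  -- e ^ a = y ^ b with a ≠ 0
  set a : ℤ := n * k' with ha
  set b : ℤ := n' * k with hb
  have ha0 : a ≠ 0 := mul_ne_zero (by exact_mod_cast hn.ne') hk'
  have hab : e ^ a = y ^ b := by
    rw [ha, hb, zpow_mul, zpow_mul, zpow_natCast, zpow_natCast, he, hy, ← zpow_mul, ← zpow_mul,
      mul_comm]
  set g : ℕ := Int.gcd a b with hg
  have hg0 : 0 < g := Int.gcd_pos_of_ne_zero_left b ha0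
  obtain ⟨a', ha'⟩ : (g : ℤ) ∣ a := Int.gcd_dvd_left ..
  obtain ⟨b', hb'⟩ : (g : ℤ) ∣ b := Int.gcd_dvd_right ..
  have hbez := Int.gcd_eq_gcd_ab a b
  set u := Int.gcdA a b
  set v := Int.gcdB a b
  have hg0' : (g : ℤ) ≠ 0 := by exact_mod_cast hg0.ne'
  have huv : u * a' + v * b' = 1 := by
    have h1 : (g : ℤ) * (u * a' + v * b') = g * 1 := by
      calc (g : ℤ) * (u * a' + v * b') = (g * a') * u + (g * b') * v := by ring
        _ = a * u + b * v := by rw [← ha', ← hb']
        _ = g * 1 := by rw [mul_one, ← hbez]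
    exact mul_left_cancel₀ hg0' h1
  have hab' : e ^ a' = y ^ b' := by
    have h1 : (e ^ a' * (y ^ b')⁻¹) ^ g = 1 := by
      have hc' : Commute (e ^ a') ((y ^ b')⁻¹) := (hc.zpow_zpow a' b').inv_right
      rw [hc'.mul_pow, ← zpow_natCast, ← zpow_natCast, ← zpow_mul, inv_zpow, ← zpow_mul]
      rw [mul_comm a', ← ha', mul_comm b', ← hb', hab, mul_inv_cancel]
    exact mul_inv_eq_one.1 (htf _ g hg0 h1)
  have ha'0 : a' ≠ 0 := by
    intro h
    rw [h, mul_zero] at ha'
    exact ha0 ha'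
  -- z = e ^ v * y ^ u
  have hz1 : (e ^ v * y ^ u) ^ a' = y := by
    have hc' : Commute (e ^ v) (y ^ u) := hc.zpow_zpow v u
    rw [hc'.mul_zpow, ← zpow_mul, ← zpow_mul, mul_comm v a', zpow_mul, hab', ← zpow_mul,
      ← zpow_add]
    have : b' * v + u * a' = 1 := by rw [← huv]; ring
    rw [this, zpow_one]
  have hz2 : (e ^ v * y ^ u) ^ b' = e := by
    have hc' : Commute (e ^ v) (y ^ u) := hc.zpow_zpow v u
    rw [hc'.mul_zpow, ← zpow_mul, ← zpow_mul, mul_comm u b', zpow_mul y, ← hab', ← zpow_mul,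
      ← zpow_add]
    have : v * b' + a' * u = 1 := by rw [← huv]; ring
    rw [this, zpow_one]
  rcases lt_or_gt_of_ne ha'0 with h | h
  · -- use the inverse
    obtain ⟨j, hj⟩ := Int.eq_ofNat_of_zero_le (neg_nonneg.2 h.le)
    refine ⟨(e ^ v * y ^ u)⁻¹, j, -b', -u, -v, by omega, ?_, ?_, ?_⟩
    · rw [inv_pow, ← zpow_natCast, ← hj, zpow_neg, inv_inv]
      exact hz1
    · rw [inv_zpow, zpow_neg, inv_inv]
      exact hz2
    · rw [mul_inv_rev, zpow_neg, zpow_neg]
      exact ((hc.zpow_zpow v u).inv_inv).eq.symm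
  · obtain ⟨j, hj⟩ := Int.eq_ofNat_of_zero_le h.le
    refine ⟨e ^ v * y ^ u, j, b', u, v, by omega, ?_, hz2, rfl⟩
    rw [← zpow_natCast, ← hj]
    exact hz1

end ConradExt
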