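import Mathlib

/-!
Relative cones in groups, relatively convex subgroups, Conrad cones.
-/

namespace ConradExt

variable {G : Type*} [Group G]

/-- `P` is a positive cone of `H` relative to the subgroup `R`: it describes a right order on the
coset space `H/R`. -/
structure RC (H R : Subgroup G) (P : Set G) : Prop where
  sub : ∀ a ∈ P, a ∈ H
  le : R ≤ H
  mul : ∀ a ∈ P, ∀ b ∈ P, a * b ∈ P
  lmul : ∀ r ∈ R, ∀ a ∈ P, r * a ∈ P
  rmul : ∀ r ∈ R, ∀ a ∈ P, a * r ∈ P
  one : (1 : G) ∉ P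
  tot : ∀ a ∈ H, a ∈ P ∨ a ∈ R ∨ a⁻¹ ∈ P

/-- Conjugation invariance of a set. -/
def Cj (P : Set G) : Prop := ∀ g : G, ∀ p ∈ P, g * p * g⁻¹ ∈ P

/-- The Conrad condition for a cone. -/
def Con (P : Set G) : Prop :=
  ∀ f g : G, f ∈ P → g * f⁻¹ ∈ P → ∃ m : ℕ, 0 < m ∧ f * g ^ m * f⁻¹ * g⁻¹ ∈ P

/-- All right orders on the subgroup `H` are Conrad. -/
def CC (H : Subgroup G) : Prop := ∀ P : Set G, RC H ⊥ P → Con P

/-- relatively convex subgroups -/
def RelConvex (R : Subgroup G) : Prop := ∃ P, RC ⊤ R P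

/-- normal subgroups with bi-orderable quotient -/
def OConvex (R : Subgroup G) : Prop := ∃ P, RC ⊤ R P ∧ Cj P

/-- all right orders are Conrad -/
def PropC (G : Type*) [Group G] : Prop := CC (⊤ : Subgroup G)

/-- bi-orderable -/
def PropO (G : Type*) [Group G] : Prop := OConvex (⊥ : Subgroup G)

/-- right orderable -/
def PropRO (G : Type*) [Group G] : Prop := RelConvex (⊥ : Subgroup G)

namespace RC

variable {H K R : Subgroup G} {P Q : Set G}

theorem not_inv (h : RC H R P) {a : G} (ha : a ∈ P) : a⁻¹ ∉ P := fun hb => by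
  have := h.mul a ha _ hb
  rw [mul_inv_cancel] at this
  exact h.one this

theorem not_mem (h : RC H R P) {a : G} (ha : a ∈ P) : a ∉ R := fun hb => by
  have := h.lmul _ (R.inv_mem hb) a ha
  rw [inv_mul_cancel] at this
  exact h.one this

theorem not_mem' (h : RC H R P) {a : G} (ha : a⁻¹ ∈ P) : a ∉ R := fun hb =>
  h.not_mem ha (R.inv_mem hb)

theorem not_inv' (h : RC H R P) {a : G} (ha : a⁻¹ ∈ P) : a ∉ P := fun hb =>
  h.not_inv hb ha

theorem pow (h : RC H R P) {a : G} (ha : a ∈ P) : ∀ n : ℕ, 0 < n → a ^ n ∈ P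
  | 0, hn => absurd hn (lt_irrefl 0)
  | 1, _ => by simpa using ha
  | (n + 2), _ => by
    rw [pow_succ]
    exact h.mul _ (h.pow ha (n + 1) (Nat.succ_pos n)) _ ha

theorem mem_of_pow (h : RC H R P) {a : G} (haH : a ∈ H) {n : ℕ} (hn : 0 < n) (ha : a ^ n ∈ R) :
    a ∈ R := by
  rcases h.tot a haH with h1 | h1 | h1
  · exact absurd ha (h.not_mem (h.pow h1 n hn))
  · exact h1
  · refine absurd ha (h.not_mem' ?_)
    rw [← inv_pow]
    exact h.pow h1 n hn

/-- gluing cones -/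
theorem glue (h : RC K H P) (h' : RC H R Q) : RC K R (P ∪ Q) where
  sub := by
    rintro a (ha | ha)
    · exact h.sub a ha
    · exact h.le (h'.sub a ha)
  le := h'.le.trans h.le
  mul := by
    rintro a (ha | ha) b (hb | hb)
    · exact Or.inl (h.mul a ha b hb)
    · exact Or.inl (h.rmul b (h'.sub b hb) a ha)
    · exact Or.inl (h.lmul a (h'.sub a ha) b hb)
    · exact Or.inr (h'.mul a ha b hb)
  lmul := by
    rintro r hr a (ha | ha)
    · exact Or.inl (h.lmul r (h'.le hr) a ha)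
    · exact Or.inr (h'.lmul r hr a ha)
  rmul := by
    rintro r hr a (ha | ha)
    · exact Or.inl (h.rmul r (h'.le hr) a ha)
    · exact Or.inr (h'.rmul r hr a ha)
  one := by
    rintro (ha | ha)
    · exact h.one ha
    · exact h'.one ha
  tot := by
    intro a ha
    rcases h.tot a ha with h1 | h1 | h1
    · exact Or.inl (Or.inl h1)
    · rcases h'.tot a h1 with h2 | h2 | h2
      · exact Or.inl (Or.inr h2)
      · exact Or.inr (Or.inl h2)
      · exact Or.inr (Or.inr (Or.inr h2))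
    · exact Or.inr (Or.inr (Or.inl h1))

/-- restriction to a subgroup -/
theorem inter (h : RC H R P) (K : Subgroup G) : RC (H ⊓ K) (R ⊓ K) (P ∩ K) where
  sub := fun a ha => ⟨h.sub a ha.1, ha.2⟩
  le := inf_le_inf_right K h.le
  mul := fun a ha b hb => ⟨h.mul a ha.1 b hb.1, K.mul_mem ha.2 hb.2⟩
  lmul := fun r hr a ha => ⟨h.lmul r hr.1 a ha.1, K.mul_mem hr.2 ha.2⟩
  rmul := fun r hr a ha => ⟨h.rmul r hr.1 a ha.1, K.mul_mem ha.2 hr.2⟩
  one := fun ha => h.one ha.1
  tot := by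
    intro a ha
    rcases h.tot a ha.1 with h1 | h1 | h1
    · exact Or.inl ⟨h1, ha.2⟩
    · exact Or.inr (Or.inl ⟨h1, ha.2⟩)
    · exact Or.inr (Or.inr ⟨h1, K.inv_mem ha.2⟩)

/-- restriction of a cone on the whole group to a subgroup -/
theorem restrict (h : RC ⊤ R P) (K : Subgroup G) : RC K (R ⊓ K) (P ∩ K) := by
  simpa using h.inter K

theorem comap {G' : Type*} [Group G'] (f : G' →* G) (h : RC H R P) :
    RC (H.comap f) (R.comap f) (f ⁻¹' P) where
  sub := fun a ha => h.sub _ ha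
  le := fun a ha => h.le ha
  mul := fun a ha b hb => by
    change f (a * b) ∈ P
    rw [map_mul]
    exact h.mul _ ha _ hb
  lmul := fun a ha b hb => by
    change f (a * b) ∈ P
    rw [map_mul]
    exact h.lmul _ ha _ hb
  rmul := fun a ha b hb => by
    change f (b * a) ∈ P
    rw [map_mul]
    exact h.rmul _ ha _ hb
  one := fun ha => by
    change f 1 ∈ P at ha
    rw [map_one] at ha
    exact h.one ha
  tot := fun a ha => by
    rcases h.tot _ ha with h1 | h1 | h1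
    · exact Or.inl h1
    · exact Or.inr (Or.inl h1)
    · refine Or.inr (Or.inr ?_)
      change f a⁻¹ ∈ P
      rw [map_inv]
      exact h1

theorem mem_map_iff {G' : Type*} [Group G'] (f : G →* G') (h : RC H R P)
    (hk : f.ker ≤ R) (a : G) : f a ∈ f '' P ↔ a ∈ P := by
  constructor
  · rintro ⟨b, hb, hab⟩
    have : b⁻¹ * a ∈ f.ker := by
      rw [MonoidHom.mem_ker, map_mul, map_inv, hab, inv_mul_cancel]
    have := h.rmul _ (hk this) b hb
    simpa using this
  · exact fun ha => ⟨a, ha, rfl⟩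

theorem map {G' : Type*} [Group G'] (f : G →* G') (h : RC H R P) (hk : f.ker ≤ R) :
    RC (H.map f) (R.map f) (f '' P) where
  sub := by
    rintro _ ⟨a, ha, rfl⟩
    exact ⟨a, h.sub a ha, rfl⟩
  le := Subgroup.map_mono h.le
  mul := by
    rintro _ ⟨a, ha, rfl⟩ _ ⟨b, hb, rfl⟩
    exact ⟨a * b, h.mul a ha b hb, map_mul f a b⟩
  lmul := by
    rintro _ ⟨a, ha, rfl⟩ _ ⟨b, hb, rfl⟩
    exact ⟨a * b, h.lmul a ha b hb, map_mul f a b⟩
  rmul := by
    rintro _ ⟨a, ha, rfl⟩ _ ⟨b, hb, rfl⟩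
    exact ⟨b * a, h.rmul a ha b hb, map_mul f b a⟩
  one := by
    intro h1
    rw [← map_one f, h.mem_map_iff f hk] at h1
    exact h.one h1
  tot := by
    rintro _ ⟨a, ha, rfl⟩
    rcases h.tot a ha with h1 | h1 | h1
    · exact Or.inl ⟨a, h1, rfl⟩
    · exact Or.inr (Or.inl ⟨a, h1, rfl⟩)
    · exact Or.inr (Or.inr ⟨a⁻¹, h1, map_inv f a⟩)

theorem normal_of_cj (h : RC ⊤ R P) (hc : Cj P) : R.Normal where
  conj_mem := by
    intro n hn g
    rcases h.tot (g * n * g⁻¹) (Subgroup.mem_top _) with h1 | h1 | h1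
    · exfalso
      have := hc g⁻¹ _ h1
      have e : g⁻¹ * (g * n * g⁻¹) * g⁻¹⁻¹ = n := by group
      rw [e] at this
      exact h.not_mem this hn
    · exact h1
    · exfalso
      have := hc g⁻¹ _ h1
      have e : g⁻¹ * (g * n * g⁻¹)⁻¹ * g⁻¹⁻¹ = n⁻¹ := by group
      rw [e] at this
      exact h.not_mem' this hn

end RC

theorem OConvex.normal {R : Subgroup G} (h : OConvex R) : R.Normal := by
  obtain ⟨P, h1, h2⟩ := h
  exact h1.normal_of_cj h2

theorem OConvex.relConvex {R : Subgroup G} (h : OConvex R) : RelConvex R := by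
  obtain ⟨P, h1, h2⟩ := h
  exact ⟨P, h1⟩

theorem relConvex_top : RelConvex (⊤ : Subgroup G) :=
  ⟨∅, ⟨by simp, le_rfl, by simp, by simp, by simp, by simp, by simp⟩⟩

theorem oConvex_top : OConvex (⊤ : Subgroup G) :=
  ⟨∅, ⟨by simp, le_rfl, by simp, by simp, by simp, by simp, by simp⟩, by intro g p hp; simp at hp⟩

theorem RelConvex.comap {G' : Type*} [Group G'] (f : G' →* G) {R : Subgroup G}
    (h : RelConvex R) : RelConvex (R.comap f) := by
  obtain ⟨P, hP⟩ := h
  exact ⟨_, by simpa using hP.comap f⟩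

theorem OConvex.comap {G' : Type*} [Group G'] (f : G' →* G) {R : Subgroup G}
    (h : OConvex R) : OConvex (R.comap f) := by
  obtain ⟨P, hP, hc⟩ := h
  refine ⟨_, by simpa using hP.comap f, ?_⟩
  intro g p hp
  change f (g * p * g⁻¹) ∈ P
  rw [map_mul, map_mul, map_inv]
  exact hc _ _ hp

theorem OConvex.map {G' : Type*} [Group G'] (f : G →* G') (hf : Function.Surjective f)
    {R : Subgroup G} (h : OConvex R) (hk : f.ker ≤ R) : OConvex (R.map f) := by
  obtain ⟨P, hP, hc⟩ := h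
  refine ⟨f '' P, ?_, ?_⟩
  · have := hP.map f hk
    rwa [Subgroup.map_top_of_surjective f hf] at this
  · intro g p hp
    obtain ⟨g, rfl⟩ := hf g
    obtain ⟨p, hp, rfl⟩ := hp
    exact ⟨g * p * g⁻¹, hc g p hp, by simp⟩

theorem OConvex.propO {N : Subgroup G} [N.Normal] (h : OConvex N) : PropO (G ⧸ N) := by
  have := h.map (QuotientGroup.mk' N) (QuotientGroup.mk'_surjective N) (by simp)
  rwa [QuotientGroup.map_mk'_self] at this

theorem PropO.oConvex {N : Subgroup G} [N.Normal] (h : PropO (G ⧸ N)) : OConvex N := by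
  have := OConvex.comap (QuotientGroup.mk' N) h
  rwa [MonoidHom.comap_bot, QuotientGroup.ker_mk'] at this

/-- transitivity of relative convexity, ambient version -/
theorem RelConvex.trans {H R : Subgroup G} (h : RelConvex H) (h' : ∃ P, RC H R P) :
    RelConvex R := by
  obtain ⟨P, hP⟩ := h
  obtain ⟨Q, hQ⟩ := h'
  exact ⟨_, hP.glue hQ⟩

theorem map_subtype_top' (H : Subgroup G) : (⊤ : Subgroup H).map H.subtype = H := by
  ext x
  simp

/-- transitivity of relative convexity, typed version -/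
theorem RelConvex.map_subtype {H : Subgroup G} (h : RelConvex H) {R : Subgroup H}
    (h' : RelConvex R) : RelConvex (R.map H.subtype) := by
  obtain ⟨Q, hQ⟩ := h'
  refine h.trans ⟨H.subtype '' Q, ?_⟩
  have := hQ.map H.subtype (by rw [Subgroup.ker_subtype]; exact bot_le)
  rwa [map_subtype_top'] at this

theorem CC.of_relConvex (hC : PropC G) {H : Subgroup G} (h : RelConvex H) : CC H := by
  intro Q hQ f g hf hg
  obtain ⟨P, hP⟩ := h
  have := hC _ (hP.glue hQ) f g (Or.inr hf) (Or.inr hg)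
  obtain ⟨m, hm, h1 | h1⟩ := this
  · exfalso
    refine hP.not_mem h1 ?_
    have hfH := hQ.sub f hf
    have hgH : g ∈ H := by
      have := H.mul_mem (hQ.sub _ hg) hfH
      simpa using this
    exact H.mul_mem (H.mul_mem (H.mul_mem hfH (H.pow_mem hgH m)) (H.inv_mem hfH)) (H.inv_mem hgH)
  · exact ⟨m, hm, h1⟩

theorem PropC.of_cc {H : Subgroup G} (h : CC H) : PropC H := by
  intro Q hQ f g hf hg
  have h1 := hQ.map H.subtype (by rw [Subgroup.ker_subtype])
  have h2 : RC H ⊥ (H.subtype '' Q) := by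
    rwa [map_subtype_top', Subgroup.map_bot] at h1
  obtain ⟨m, hm, h3⟩ := h _ h2 f g ⟨f, hf, rfl⟩ ⟨_, hg, by simp⟩
  refine ⟨m, hm, ?_⟩
  obtain ⟨y, hy, hy'⟩ := h3
  have : y = f * g ^ m * f⁻¹ * g⁻¹ := by
    apply Subtype.ext
    simpa using hy'
  rwa [← this]

theorem PropC.sub (hC : PropC G) {H : Subgroup G} (h : RelConvex H) : PropC H :=
  PropC.of_cc (CC.of_relConvex hC h)

/-- In a non-Conrad situation the inequalities are strict. -/
theorem strict_of_not {P : Set G} (hP : RC ⊤ ⊥ P) {f g : G} (hf : f ∈ P)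
    (hg : g * f⁻¹ ∈ P) (hn : ¬ ∃ m : ℕ, 0 < m ∧ f * g ^ m * f⁻¹ * g⁻¹ ∈ P) (m : ℕ) (hm : 0 < m) :
    (f * g ^ m * f⁻¹ * g⁻¹)⁻¹ ∈ P := by
  push Not at hn
  rcases hP.tot (f * g ^ m * f⁻¹ * g⁻¹) (Subgroup.mem_top _) with h1 | h1 | h1
  · exact absurd h1 (hn m hm)
  · exfalso
    rw [Subgroup.mem_bot] at h1
    refine hn (m + 1) (Nat.succ_pos m) ?_
    -- `f g f⁻¹ ∈ P`
    have hgP : g ∈ P := by
      have := hP.mul _ hg _ hf
      simpa using this
    have h2 : f * g * f⁻¹ ∈ P := by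
      have h3 : f * (g * f⁻¹) ∈ P := hP.mul _ hf _ hg
      rwa [← mul_assoc] at h3
    have h4 : f * g ^ (m + 1) * f⁻¹ * g⁻¹ = (f * g * f⁻¹) * (f * g ^ m * f⁻¹ * g⁻¹) := by
      rw [pow_succ']
      group
    rw [h4, h1, mul_one]
    exact h2
  · exact h1

theorem PropC.of_surjective {G' : Type*} [Group G'] (hC : PropC G) (hRO : PropRO G)
    (φ : G →* G') (hφ : Function.Surjective φ) : PropC G' := by
  intro Q hQ f g hf hg
  by_contra hn
  obtain ⟨f, rfl⟩ := hφ f
  obtain ⟨g, rfl⟩ := hφ g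
  obtain ⟨P₀, hP₀⟩ := hRO
  have h1 : RC ⊤ φ.ker (φ ⁻¹' Q) := by
    have := hQ.comap φ
    rwa [Subgroup.comap_top, MonoidHom.comap_bot] at this
  have h2 : RC φ.ker ⊥ (P₀ ∩ φ.ker) := by
    have := hP₀.restrict φ.ker
    rwa [bot_inf_eq] at this
  have h3 := hC _ (h1.glue h2) f g (Or.inl hf) (Or.inl (by
    change φ (g * f⁻¹) ∈ Q
    rw [map_mul, map_inv]
    exact hg))
  obtain ⟨m, hm, h4⟩ := h3
  have h5 := strict_of_not hQ hf hg hn m hm
  have h6 : (f * g ^ m * f⁻¹ * g⁻¹)⁻¹ ∈ φ ⁻¹' Q := by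
    change φ _ ∈ Q
    simpa only [map_mul, map_inv, map_pow] using h5
  rcases h4 with h4 | h4
  · exact h1.not_inv h4 h6
  · exact h1.not_mem' h6 h4.2

end ConradExt
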