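import Pool.Agent.Lib.MP_7217b8_al.Family

/-!
Maximal invariant cones in abelian groups with a commutative set of operators.
-/

namespace ConradExt

theorem zorn_cone {M : Type*} [AddCommGroup M] (S : Set (AddMonoid.End M))
    (hone : 1 ∈ S) (hadd : ∀ s ∈ S, ∀ t ∈ S, s + t ∈ S) (hmul : ∀ s ∈ S, ∀ t ∈ S, s * t ∈ S)
    (hcomm : ∀ s ∈ S, ∀ t ∈ S, s * t = t * s) (C : Set M) (h0 : (0 : M) ∉ C)
    (hCadd : ∀ a ∈ C, ∀ b ∈ C, a + b ∈ C) (hCS : ∀ s ∈ S, ∀ a ∈ C, s a ∈ C) :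
    ∃ P : Set M, C ⊆ P ∧ (0 : M) ∉ P ∧ (∀ a ∈ P, ∀ b ∈ P, a + b ∈ P) ∧
      (∀ s ∈ S, ∀ a ∈ P, s a ∈ P) ∧ ∀ u : M, u ∈ P ∨ -u ∈ P ∨ ∃ s ∈ S, s u = 0 := by
  obtain ⟨P, hCP, hP⟩ := zorn_subset_nonempty
    {P : Set M | (0 : M) ∉ P ∧ (∀ a ∈ P, ∀ b ∈ P, a + b ∈ P) ∧ (∀ s ∈ S, ∀ a ∈ P, s a ∈ P)} (by
      intro c hc hchain hne
      refine ⟨⋃₀ c, ⟨?_, ?_, ?_⟩, fun s hs => Set.subset_sUnion_of_mem hs⟩
      · rintro ⟨T, hT, h⟩
        exact (hc hT).1 h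
      · rintro a ⟨T, hT, ha⟩ b ⟨U, hU, hb⟩
        rcases hchain.total hT hU with h | h
        · exact ⟨U, hU, (hc hU).2.1 a (h ha) b hb⟩
        · exact ⟨T, hT, (hc hT).2.1 a ha b (h hb)⟩
      · rintro s hs a ⟨T, hT, ha⟩
        exact ⟨T, hT, (hc hT).2.2 s hs a ha⟩) C ⟨h0, hCadd, hCS⟩
  obtain ⟨⟨hP0, hPadd, hPS⟩, hmax⟩ := hP
  refine ⟨P, hCP, hP0, hPadd, hPS, ?_⟩
  have key : ∀ u, u ∉ P → (∃ s ∈ S, s u = 0) ∨ ∃ p ∈ P, ∃ s ∈ S, p + s u = 0 := by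
    intro u hu
    by_contra hcon
    push Not at hcon
    obtain ⟨hc1, hc2⟩ := hcon
    have hP' : (P ∪ {v | ∃ s ∈ S, s u = v} ∪ {v | ∃ p ∈ P, ∃ s ∈ S, p + s u = v}) ∈
        {P : Set M | (0 : M) ∉ P ∧ (∀ a ∈ P, ∀ b ∈ P, a + b ∈ P) ∧
          (∀ s ∈ S, ∀ a ∈ P, s a ∈ P)} := by
      refine ⟨?_, ?_, ?_⟩
      · rintro ((h | ⟨s, hs, h⟩) | ⟨p, hp, s, hs, h⟩)
        · exact hP0 h
        · exact hc1 s hs h
        · exact hc2 p hp s hs h
      · rintro a ((h | ⟨s, hs, h⟩) | ⟨p, hp, s, hs, h⟩) b ((h' | ⟨t, ht, h'⟩) | ⟨q, hq, t, ht, h'⟩)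
        · exact Or.inl (Or.inl (hPadd a h b h'))
        · exact Or.inr ⟨a, h, t, ht, by rw [h']⟩
        · exact Or.inr ⟨a + q, hPadd a h q hq, t, ht, by rw [← h', add_assoc]⟩
        · exact Or.inr ⟨b, h', s, hs, by rw [h, add_comm]⟩
        · exact Or.inl (Or.inr ⟨s + t, hadd s hs t ht, by rw [← h, ← h']; rfl⟩)
        · exact Or.inr ⟨q, hq, s + t, hadd s hs t ht, by
            rw [← h, ← h']
            change q + (s u + t u) = _
            abel⟩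
        · exact Or.inr ⟨p + b, hPadd p hp b h', s, hs, by
            rw [← h]
            abel⟩
        · exact Or.inr ⟨p, hp, s + t, hadd s hs t ht, by
            rw [← h, ← h']
            change p + (s u + t u) = _
            abel⟩
        · exact Or.inr ⟨p + q, hPadd p hp q hq, s + t, hadd s hs t ht, by
            rw [← h, ← h']
            change p + q + (s u + t u) = _
            abel⟩
      · rintro r hr a ((h | ⟨s, hs, h⟩) | ⟨p, hp, s, hs, h⟩)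
        · exact Or.inl (Or.inl (hPS r hr a h))
        · exact Or.inl (Or.inr ⟨r * s, hmul r hr s hs, by rw [← h]; rfl⟩)
        · exact Or.inr ⟨r p, hPS r hr p hp, r * s, hmul r hr s hs, by
            rw [← h, map_add]
            rfl⟩
    have h1 := hmax hP' (fun x hx => Or.inl (Or.inl hx))
    exact hu (h1 (Or.inl (Or.inr ⟨1, hone, rfl⟩)))
  intro u
  by_contra hcon
  push Not at hcon
  obtain ⟨h1, h2, h3⟩ := hcon
  rcases key u h1 with ⟨s, hs, h4⟩ | ⟨p, hp, s, hs, h4⟩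
  · exact h3 s hs h4
  rcases key (-u) h2 with ⟨t, ht, h5⟩ | ⟨q, hq, t, ht, h5⟩
  · rw [map_neg, neg_eq_zero] at h5
    exact h3 t ht h5
  have h6 := hPadd _ (hPS t ht p hp) _ (hPS s hs q hq)
  have e1 : p = -(s u) := eq_neg_of_add_eq_zero_left h4
  have e2 : q = t u := by
    rw [map_neg] at h5
    have := eq_neg_of_add_eq_zero_left h5
    rwa [neg_neg] at this
  have e3 : t (s u) = s (t u) := by
    have := hcomm t ht s hs
    exact DFunLike.congr_fun this u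
  rw [e1, e2, map_neg, e3, neg_add_cancel] at h6
  exact hP0 h6

/-- full package: the maximal cone together with its kernel -/
theorem zorn_cone' {M : Type*} [AddCommGroup M] (S : Set (AddMonoid.End M))
    (hone : 1 ∈ S) (hadd : ∀ s ∈ S, ∀ t ∈ S, s + t ∈ S) (hmul : ∀ s ∈ S, ∀ t ∈ S, s * t ∈ S)
    (hcomm : ∀ s ∈ S, ∀ t ∈ S, s * t = t * s) (C : Set M) (h0 : (0 : M) ∉ C)
    (hCadd : ∀ a ∈ C, ∀ b ∈ C, a + b ∈ C) (hCS : ∀ s ∈ S, ∀ a ∈ C, s a ∈ C) :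
    ∃ (P : Set M) (N : AddSubgroup M), C ⊆ P ∧ (0 : M) ∉ P ∧ (∀ a ∈ P, ∀ b ∈ P, a + b ∈ P) ∧
      (∀ s ∈ S, ∀ a ∈ P, s a ∈ P) ∧ (∀ u : M, u ∈ P ∨ u ∈ N ∨ -u ∈ P) ∧
      (∀ u, u ∈ N ↔ ∃ s ∈ S, s u = 0) ∧ (∀ r ∈ N, ∀ a ∈ P, r + a ∈ P) := by
  obtain ⟨P, hCP, hP0, hPadd, hPS, htot⟩ := zorn_cone S hone hadd hmul hcomm C h0 hCadd hCS
  let N : AddSubgroup M :=
    { carrier := {u | ∃ s ∈ S, s u = 0}
      zero_mem' := ⟨1, hone, rfl⟩
      neg_mem' := by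
        rintro u ⟨s, hs, h⟩
        exact ⟨s, hs, by rw [map_neg, h, neg_zero]⟩
      add_mem' := by
        rintro u v ⟨s, hs, h⟩ ⟨t, ht, h'⟩
        refine ⟨s * t, hmul s hs t ht, ?_⟩
        have e3 : (s * t) u = t (s u) := DFunLike.congr_fun (hcomm s hs t ht) u
        have e4 : (s * t) v = s (t v) := rfl
        rw [map_add, e3, e4, h, h', map_zero, map_zero, add_zero] }
  refine ⟨P, N, hCP, hP0, hPadd, hPS, ?_, fun u => Iff.rfl, ?_⟩
  · intro u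
    rcases htot u with h | h | h
    · exact Or.inl h
    · exact Or.inr (Or.inr h)
    · exact Or.inr (Or.inl h)
  · rintro r ⟨s, hs, h⟩ a ha
    have h1 : s (r + a) = s a := by rw [map_add, h, zero_add]
    rcases htot (r + a) with h2 | h2 | ⟨t, ht, h2⟩
    · exact h2
    · exfalso
      have h3 := hPS s hs _ h2
      rw [map_neg, h1] at h3
      have h4 := hPadd _ h3 _ (hPS s hs a ha)
      rw [neg_add_cancel] at h4
      exact hP0 h4
    · exfalso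
      have h3 := hPS t ht _ (hPS s hs a ha)
      rw [← h1] at h3
      have e3 : t (s (r + a)) = s (t (r + a)) := DFunLike.congr_fun (hcomm t ht s hs) (r + a)
      rw [e3, h2, map_zero] at h3
      exact hP0 h3

/-- torsion-free abelian groups are orderable -/
theorem torsionFree_cone {A : Type*} [CommGroup A]
    (h : ∀ a : A, ∀ n : ℕ, 0 < n → a ^ n = 1 → a = 1) : ∃ P : Set A, RC (⊤ : Subgroup A) ⊥ P := by
  obtain ⟨P, -, hP0, hPadd, -, htot⟩ := zorn_cone (M := Additive A)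
    {s | ∃ n : ℕ, 0 < n ∧ s = (n : AddMonoid.End (Additive A))}
    ⟨1, one_pos, by simp⟩
    (by
      rintro _ ⟨m, hm, rfl⟩ _ ⟨n, hn, rfl⟩
      exact ⟨m + n, by omega, by push_cast; rfl⟩)
    (by
      rintro _ ⟨m, hm, rfl⟩ _ ⟨n, hn, rfl⟩
      exact ⟨m * n, Nat.mul_pos hm hn, by push_cast; rfl⟩)
    (by
      rintro _ ⟨m, hm, rfl⟩ _ ⟨n, hn, rfl⟩
      exact Nat.cast_comm m _)
    ∅ (by simp) (by simp) (by simp)
  refine ⟨{a | Additive.ofMul a ∈ P}, ⟨fun _ _ => Subgroup.mem_top _, le_top, ?_, ?_, ?_, ?_, ?_⟩⟩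
  · intro a ha b hb
    exact hPadd _ ha _ hb
  · intro r hr a ha
    rw [Subgroup.mem_bot] at hr
    rwa [hr, one_mul]
  · intro r hr a ha
    rw [Subgroup.mem_bot] at hr
    rwa [hr, mul_one]
  · exact hP0
  · intro a _
    rcases htot (Additive.ofMul a) with h1 | h1 | ⟨s, ⟨n, hn, rfl⟩, h1⟩
    · exact Or.inl h1
    · exact Or.inr (Or.inr h1)
    · refine Or.inr (Or.inl ?_)
      rw [Subgroup.mem_bot]
      apply h a n hn
      rw [AddMonoid.End.natCast_apply] at h1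
      exact h1

/-- relative version: torsion-free abelian factors -/
theorem exists_rc_of_abelian {G : Type*} [Group G] {N M : Subgroup G} (hNM : N ≤ M)
    (hab : ∀ a ∈ M, ∀ b ∈ M, a * b * a⁻¹ * b⁻¹ ∈ N)
    (hiso : ∀ a ∈ M, ∀ n : ℕ, 0 < n → a ^ n ∈ N → a ∈ N) : ∃ P, RC M N P := by
  have hnorm : (N.subgroupOf M).Normal := by
    refine ⟨fun a ha g => ?_⟩
    rw [Subgroup.mem_subgroupOf] at ha ⊢
    have h1 := hab g.1 g.2 a.1 a.2
    have h2 := N.mul_mem h1 ha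
    simpa using h2
  letI : CommGroup (M ⧸ N.subgroupOf M) :=
    { (inferInstance : Group (M ⧸ N.subgroupOf M)) with
      mul_comm := by
        intro x y
        obtain ⟨a, rfl⟩ := QuotientGroup.mk_surjective x
        obtain ⟨b, rfl⟩ := QuotientGroup.mk_surjective y
        rw [← QuotientGroup.mk_mul, ← QuotientGroup.mk_mul, QuotientGroup.eq,
          Subgroup.mem_subgroupOf]
        have h1 := hab (b⁻¹ : M).1 (b⁻¹ : M).2 (a⁻¹ : M).1 (a⁻¹ : M).2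
        simpa [mul_assoc] using h1 }
  obtain ⟨P, hP⟩ := torsionFree_cone (A := M ⧸ N.subgroupOf M) (by
    intro x n hn hx
    obtain ⟨a, rfl⟩ := QuotientGroup.mk_surjective x
    rw [← QuotientGroup.mk_pow, QuotientGroup.eq_one_iff, Subgroup.mem_subgroupOf] at hx
    rw [QuotientGroup.eq_one_iff, Subgroup.mem_subgroupOf]
    exact hiso a.1 a.2 n hn (by simpa using hx))
  have h1 := hP.comap (QuotientGroup.mk' (N.subgroupOf M))
  rw [Subgroup.comap_top, MonoidHom.comap_bot, QuotientGroup.ker_mk'] at h1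
  have h2 := h1.map M.subtype (by rw [Subgroup.ker_subtype]; exact bot_le)
  rw [map_subtype_top', Subgroup.subgroupOf_map_subtype, inf_eq_left.2 hNM] at h2
  exact ⟨_, h2⟩

end ConradExt
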