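import Pool.Agent.Lib.MP_7217b8_al.Ordered
import Pool.Agent.Lib.MP_7217b8_al.ZornCone

/-!
If `G` is bi-orderable and all right orders are Conrad, then `G/Z(G)` is bi-orderable.
-/

set_option linter.unusedSectionVars false

namespace ConradExt

variable {G : Type*} [Group G]

theorem root_unique (hO : PropO G) {x y : G} {n : ℕ} (hn : 0 < n) (h : x ^ n = y ^ n) : x = y := by
  obtain ⟨P, hP, hc⟩ := hO
  obtain ⟨lo, h1, h2, h3⟩ := exists_order_of_cone hP hc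
  exact (pow_left_strictMono (M := G) hn.ne').injective h

theorem PropO.torsionFree (hO : PropO G) {x : G} {n : ℕ} (hn : 0 < n) (h : x ^ n = 1) : x = 1 :=
  root_unique hO hn (by rw [h, one_pow])

theorem root_unique_mod {U : Subgroup G} (hU : OConvex U) {x y : G} {n : ℕ} (hn : 0 < n)
    (h : x ^ n * (y ^ n)⁻¹ ∈ U) : x * y⁻¹ ∈ U := by
  have hN := hU.normal
  have hO := hU.propO
  have h1 : (QuotientGroup.mk x : G ⧸ U) ^ n = (QuotientGroup.mk y : G ⧸ U) ^ n := by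
    rw [← mul_inv_eq_one, ← QuotientGroup.mk_pow, ← QuotientGroup.mk_pow, ← QuotientGroup.mk_inv,
      ← QuotientGroup.mk_mul, QuotientGroup.eq_one_iff]
    exact h
  have h2 := root_unique hO hn h1
  rwa [← mul_inv_eq_one, ← QuotientGroup.mk_inv, ← QuotientGroup.mk_mul,
    QuotientGroup.eq_one_iff] at h2

section Ordered

variable [LinearOrder G] [MulLeftMono G] [MulRightMono G]

/-- the convex hull of all commutators `[h,g]` -/
def Vc (g : G) : Subgroup G := sInf {U | IsCvx U ∧ ∀ h : G, h * g * h⁻¹ * g⁻¹ ∈ U}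

theorem isCvx_sInf (S : Set (Subgroup G)) (h : ∀ U ∈ S, IsCvx U) : IsCvx (sInf S) := by
  intro a b ha hab hb
  rw [Subgroup.mem_sInf] at hb ⊢
  exact fun U hU => h U hU a b ha hab (hb U hU)

theorem Vc_cvx (g : G) : IsCvx (Vc g) := isCvx_sInf _ fun _ h => h.1

theorem comm_mem_Vc (g h : G) : h * g * h⁻¹ * g⁻¹ ∈ Vc g := by
  rw [Vc, Subgroup.mem_sInf]
  exact fun U hU => hU.2 h

theorem Vc_le {g : G} {U : Subgroup G} (hU : IsCvx U) (h : ∀ h : G, h * g * h⁻¹ * g⁻¹ ∈ U) :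
    Vc g ≤ U := sInf_le ⟨hU, h⟩

theorem Vc_le_iff {g : G} {U : Subgroup G} (hU : IsCvx U) :
    Vc g ≤ U ↔ ∀ h : G, h * g * h⁻¹ * g⁻¹ ∈ U :=
  ⟨fun h x => h (comm_mem_Vc g x), Vc_le hU⟩

theorem isCvx_bot : IsCvx (⊥ : Subgroup G) := by
  intro a b ha hab hb
  rw [Subgroup.mem_bot] at hb ⊢
  rw [hb] at hab
  exact le_antisymm hab ha

theorem Vc_eq_bot_iff (g : G) : Vc g = ⊥ ↔ g ∈ Subgroup.center G := by
  rw [eq_bot_iff, Vc_le_iff isCvx_bot, Subgroup.mem_center_iff]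
  constructor
  · intro h x
    have := h x
    rw [Subgroup.mem_bot, mul_inv_eq_one, mul_inv_eq_iff_eq_mul] at this
    exact this
  · intro h x
    rw [Subgroup.mem_bot, mul_inv_eq_one, mul_inv_eq_iff_eq_mul]
    exact h x

theorem Vc_mul_le (hcen : Cen G) {f g : G} {U : Subgroup G} (hU : IsCvx U) (hf : Vc f ≤ U)
    (hg : Vc g ≤ U) : Vc (f * g) ≤ U := by
  rw [Vc_le_iff hU] at *
  intro h
  have e : h * (f * g) * h⁻¹ * (f * g)⁻¹ =
      (h * f * h⁻¹ * f⁻¹) * (f * (h * g * h⁻¹ * g⁻¹) * f⁻¹) := by group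
  rw [e]
  exact U.mul_mem (hf h) ((hU.normal hcen).conj_mem _ (hg h) f)

theorem Vc_inv_le (hcen : Cen G) {g : G} {U : Subgroup G} (hU : IsCvx U)
    (hg : Vc g ≤ U) : Vc g⁻¹ ≤ U := by
  rw [Vc_le_iff hU] at *
  intro h
  have e : h * g⁻¹ * h⁻¹ * g⁻¹⁻¹ = (g⁻¹ * (h * g * h⁻¹ * g⁻¹) * g⁻¹⁻¹)⁻¹ := by group
  rw [e]
  exact U.inv_mem ((hU.normal hcen).conj_mem _ (hg h) g⁻¹)

theorem Vc_lt_of_mem (hcen : Cen G) {v : G} {W : Subgroup G} (hW : IsCvx W) (hWb : W ≠ ⊥)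
    (hv : v ∈ W) : Vc v < W := by
  refine lt_of_le_of_ne ?_ ?_
  · rw [Vc_le_iff hW]
    intro h
    exact W.mul_mem ((hW.normal hcen).conj_mem v hv h) (W.inv_mem hv)
  · intro hEq
    by_cases hv1 : v = 1
    · apply hWb
      rw [← hEq, Vc_eq_bot_iff, hv1]
      exact Subgroup.one_mem _
    · obtain ⟨U, hU, hvU, hcomm⟩ := exists_small hcen hv1
      have := Vc_le hU hcomm
      rw [hEq] at this
      exact hvU (this hv)

theorem lt_max_cases {A B : Subgroup G} (hA : IsCvx A) (hB : IsCvx B) :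
    A < B ∨ A = B ∨ B < A := by
  rcases hA.total hB with h | h
  · rcases h.eq_or_lt with h | h
    · exact Or.inr (Or.inl h)
    · exact Or.inl h
  · rcases h.eq_or_lt with h | h
    · exact Or.inr (Or.inl h.symm)
    · exact Or.inr (Or.inr h)

theorem exists_local_cone (hcen : Cen G) (W : Subgroup G) (hW : IsCvx W) (hWb : W ≠ ⊥) :
    ∃ (M N : Subgroup G) (P : Set G), (∀ g, g ∈ M ↔ Vc g ≤ W) ∧ (∀ g, g ∈ N ↔ Vc g < W) ∧
      RC M N P := by
  have hVone : Vc (1 : G) = ⊥ := by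
    rw [Vc_eq_bot_iff]
    exact Subgroup.one_mem _
  let M : Subgroup G :=
    { carrier := {g | Vc g ≤ W}
      one_mem' := by
        change Vc (1 : G) ≤ W
        rw [hVone]
        exact bot_le
      mul_mem' := fun ha hb => Vc_mul_le hcen hW ha hb
      inv_mem' := fun ha => Vc_inv_le hcen hW ha }
  let N : Subgroup G :=
    { carrier := {g | Vc g < W}
      one_mem' := by
        change Vc (1 : G) < W
        rw [hVone]
        exact bot_lt_iff_ne_bot.2 hWb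
      mul_mem' := by
        intro a b ha hb
        change Vc (a * b) < W
        rcases (Vc_cvx a).total (Vc_cvx b) with h | h
        · exact lt_of_le_of_lt (Vc_mul_le hcen (Vc_cvx b) h le_rfl) hb
        · exact lt_of_le_of_lt (Vc_mul_le hcen (Vc_cvx a) le_rfl h) ha
      inv_mem' := by
        intro a ha
        change Vc a⁻¹ < W
        exact lt_of_le_of_lt (Vc_inv_le hcen (Vc_cvx a) le_rfl) ha }
  have hNM : N ≤ M := fun g hg => le_of_lt (show Vc g < W from hg)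
  obtain ⟨P, hP⟩ := exists_rc_of_abelian hNM (by
    intro a _ b hb
    have hb' : Vc b ≤ W := hb
    have h1 : a * b * a⁻¹ * b⁻¹ ∈ W := hb' (comm_mem_Vc b a)
    exact Vc_lt_of_mem hcen hW hWb h1) (by
    intro a ha n hn han
    have han' : Vc (a ^ n) < W := han
    change Vc a < W
    refine lt_of_le_of_lt ?_ han'
    refine Vc_le (Vc_cvx _) fun h => ?_
    have h1 := comm_mem_Vc (a ^ n) h
    have h2 : h * a ^ n * h⁻¹ = (h * a * h⁻¹) ^ n := by rw [conj_pow]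
    rw [h2] at h1
    exact root_unique_mod ((Vc_cvx _).oConvex hcen) hn h1)
  exact ⟨M, N, P, fun _ => Iff.rfl, fun _ => Iff.rfl, hP⟩

theorem oConvex_center_of_cen (hcen : Cen G) : OConvex (Subgroup.center G) := by
  have hex := exists_local_cone hcen
  choose! M N P hM hN hP using hex
  have hVP : ∀ W : Subgroup G, IsCvx W → W ≠ ⊥ → ∀ c ∈ P W, Vc c = W := by
    intro W hW hWb c hc
    have h1 := (hM W hW hWb c).1 ((hP W hW hWb).sub c hc)
    have h2 : ¬ Vc c < W := fun h => (hP W hW hWb).not_mem hc ((hN W hW hWb c).2 h)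
    exact h1.eq_or_lt.resolve_right h2
  refine ⟨{g | Vc g ≠ ⊥ ∧ g ∈ P (Vc g)}, ⟨fun _ _ => Subgroup.mem_top _, le_top, ?_, ?_, ?_, ?_,
    ?_⟩, ?_⟩
  · rintro a ⟨ha0, ha⟩ b ⟨hb0, hb⟩
    rcases lt_max_cases (Vc_cvx a) (Vc_cvx b) with h | h | h
    · have h1 := (hP _ (Vc_cvx b) hb0).lmul a ((hN _ (Vc_cvx b) hb0 a).2 h) b hb
      have h2 := hVP _ (Vc_cvx b) hb0 _ h1
      exact ⟨by rw [h2]; exact hb0, by rw [h2]; exact h1⟩
    · rw [h] at ha
      have h1 := (hP _ (Vc_cvx b) hb0).mul a ha b hb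
      have h2 := hVP _ (Vc_cvx b) hb0 _ h1
      exact ⟨by rw [h2]; exact hb0, by rw [h2]; exact h1⟩
    · have h1 := (hP _ (Vc_cvx a) ha0).rmul b ((hN _ (Vc_cvx a) ha0 b).2 h) a ha
      have h2 := hVP _ (Vc_cvx a) ha0 _ h1
      exact ⟨by rw [h2]; exact ha0, by rw [h2]; exact h1⟩
  · rintro r hr a ⟨ha0, ha⟩
    have hr' : Vc r < Vc a := by
      rw [(Vc_eq_bot_iff r).2 hr]
      exact bot_lt_iff_ne_bot.2 ha0
    have h1 := (hP _ (Vc_cvx a) ha0).lmul r ((hN _ (Vc_cvx a) ha0 r).2 hr') a ha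
    have h2 := hVP _ (Vc_cvx a) ha0 _ h1
    exact ⟨by rw [h2]; exact ha0, by rw [h2]; exact h1⟩
  · rintro r hr a ⟨ha0, ha⟩
    have hr' : Vc r < Vc a := by
      rw [(Vc_eq_bot_iff r).2 hr]
      exact bot_lt_iff_ne_bot.2 ha0
    have h1 := (hP _ (Vc_cvx a) ha0).rmul r ((hN _ (Vc_cvx a) ha0 r).2 hr') a ha
    have h2 := hVP _ (Vc_cvx a) ha0 _ h1
    exact ⟨by rw [h2]; exact ha0, by rw [h2]; exact h1⟩
  · rintro ⟨h, -⟩
    apply h
    rw [Vc_eq_bot_iff]
    exact Subgroup.one_mem _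
  · intro a _
    by_cases ha0 : Vc a = ⊥
    · exact Or.inr (Or.inl ((Vc_eq_bot_iff a).1 ha0))
    · rcases (hP _ (Vc_cvx a) ha0).tot a ((hM _ (Vc_cvx a) ha0 a).2 le_rfl) with h | h | h
      · exact Or.inl ⟨ha0, h⟩
      · exact absurd ((hN _ (Vc_cvx a) ha0 a).1 h) (lt_irrefl _)
      · have h2 := hVP _ (Vc_cvx a) ha0 _ h
        exact Or.inr (Or.inr ⟨by rw [h2]; exact ha0, by rw [h2]; exact h⟩)
  · rintro g a ⟨ha0, ha⟩
    have h0 : Vc (g * a * g⁻¹ * a⁻¹) < Vc a :=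
      Vc_lt_of_mem hcen (Vc_cvx a) ha0 (comm_mem_Vc a g)
    have h1 := (hP _ (Vc_cvx a) ha0).lmul _ ((hN _ (Vc_cvx a) ha0 _).2 h0) a ha
    rw [inv_mul_cancel_right] at h1
    have h2 := hVP _ (Vc_cvx a) ha0 _ h1
    exact ⟨by rw [h2]; exact ha0, by rw [h2]; exact h1⟩

end Ordered

/-- `G/Z(G)` is bi-orderable if `G` is and all right orders of `G` are Conrad. -/
theorem oConvex_center (hC : PropC G) (hO : PropO G) : OConvex (Subgroup.center G) := by
  obtain ⟨lo, h1, h2, hcen⟩ := exists_cen hC hO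
  exact oConvex_center_of_cen hcen

end ConradExt
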