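import Pool.Agent.Lib.MP_7217b8_al.Unipotent

/-!
The conjugation action on an abelian normal subgroup, written additively.
-/

namespace ConradExt

variable {Y : Type*} [Group Y]

/-- an abelian subgroup, written additively -/
def AbG (A : Subgroup Y) (_ : ∀ a ∈ A, ∀ b ∈ A, a * b = b * a) : Type _ := Additive A

variable {A : Subgroup Y} {hA : ∀ a ∈ A, ∀ b ∈ A, a * b = b * a}

instance : AddCommGroup (AbG A hA) :=
  { (inferInstanceAs (AddGroup (Additive A)) : AddGroup (AbG A hA)) with
    add_comm := by
      intro a b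
      change Additive.ofMul (Additive.toMul a * Additive.toMul b) =
        Additive.ofMul (Additive.toMul b * Additive.toMul a)
      congr 1
      exact Subtype.ext (hA _ (Additive.toMul a).2 _ (Additive.toMul b).2) }

/-- the underlying element -/
def AbG.val (m : AbG A hA) : Y := (Additive.toMul (α := A) m).1

/-- the element of the additive group given by an element of `A` -/
def toAb (hA : ∀ a ∈ A, ∀ b ∈ A, a * b = b * a) (a : Y) (ha : a ∈ A) : AbG A hA :=
  Additive.ofMul (⟨a, ha⟩ : A)

theorem AbG.val_mem (m : AbG A hA) : m.val ∈ A := (Additive.toMul (α := A) m).2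

@[simp] theorem toAb_val (a : Y) (ha : a ∈ A) : (toAb hA a ha).val = a := rfl

theorem AbG.ext {m n : AbG A hA} (h : m.val = n.val) : m = n := by
  have : Additive.toMul (α := A) m = Additive.toMul (α := A) n := Subtype.ext h
  exact this

@[simp] theorem AbG.val_zero : (0 : AbG A hA).val = 1 := rfl

@[simp] theorem AbG.val_add (m n : AbG A hA) : (m + n).val = m.val * n.val := rfl

@[simp] theorem AbG.val_neg (m : AbG A hA) : (-m).val = m.val⁻¹ := rfl

@[simp] theorem AbG.val_sub (m n : AbG A hA) : (m - n).val = m.val * n.val⁻¹ := by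
  rw [sub_eq_add_neg, AbG.val_add, AbG.val_neg]

theorem AbG.val_nsmul (n : ℕ) (m : AbG A hA) : (n • m).val = m.val ^ n := by
  induction n with
  | zero => simp
  | succ n ih => rw [succ_nsmul, AbG.val_add, ih, pow_succ]

theorem AbG.val_zsmul (n : ℤ) (m : AbG A hA) : (n • m).val = m.val ^ n := by
  obtain ⟨k, rfl | rfl⟩ := n.eq_nat_or_neg
  · rw [natCast_zsmul, AbG.val_nsmul, zpow_natCast]
  · rw [neg_zsmul, natCast_zsmul, AbG.val_neg, AbG.val_nsmul, zpow_neg, zpow_natCast]

theorem AbG.val_eq_one {m : AbG A hA} : m.val = 1 ↔ m = 0 :=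
  ⟨fun h => AbG.ext h, fun h => by rw [h]; rfl⟩

/-- the conjugation action -/
def conjRep (A : Subgroup Y) (hA : ∀ a ∈ A, ∀ b ∈ A, a * b = b * a) [hN : A.Normal] :
    Y →* AddMonoid.End (AbG A hA) where
  toFun y :=
    { toFun := fun m => toAb hA (y * m.val * y⁻¹) (hN.conj_mem _ m.val_mem y)
      map_zero' := by
        apply AbG.ext
        simp
      map_add' := by
        intro m n
        apply AbG.ext
        simp only [toAb_val, AbG.val_add]
        group }
  map_one' := by
    ext m
    apply AbG.ext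
    change 1 * m.val * 1⁻¹ = m.val
    simp
  map_mul' := by
    intro a b
    ext m
    apply AbG.ext
    change a * b * m.val * (a * b)⁻¹ = a * (b * m.val * b⁻¹) * a⁻¹
    group

theorem conjRep_val [A.Normal] (y : Y) (m : AbG A hA) :
    (conjRep A hA y m).val = y * m.val * y⁻¹ := rfl

theorem conjRep_sub_val [A.Normal] (y : Y) (m : AbG A hA) :
    (conjRep A hA y m - m).val = y * m.val * y⁻¹ * m.val⁻¹ := by
  rw [AbG.val_sub, conjRep_val]

/-- elements of `A` act trivially -/
theorem conjRep_mem [A.Normal] {y : Y} (hy : y ∈ A) : conjRep A hA y = 1 := by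
  ext m
  apply AbG.ext
  change y * m.val * y⁻¹ = m.val
  rw [hA y hy m.val m.val_mem, mul_inv_cancel_right]

theorem conjRep_eq [A.Normal] {a b : Y}
    (h : (QuotientGroup.mk a : Y ⧸ A) = QuotientGroup.mk b) :
    conjRep A hA a = conjRep A hA b := by
  have h1 : a⁻¹ * b ∈ A := QuotientGroup.eq.1 h
  have h2 : b = a * (a⁻¹ * b) := by group
  rw [h2, map_mul, conjRep_mem h1, mul_one]

theorem conjRep_commute [A.Normal] {a b : Y}
    (h : (QuotientGroup.mk a : Y ⧸ A) * QuotientGroup.mk b =
      QuotientGroup.mk b * QuotientGroup.mk a) :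
    conjRep A hA a * conjRep A hA b = conjRep A hA b * conjRep A hA a := by
  rw [← map_mul, ← map_mul]
  exact conjRep_eq h

end ConradExt
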