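import Pool.Agent.Lib.MP_7217b8_al.Family

/-!
The crossing lemma.
-/

namespace ConradExt

variable {G : Type*} [Group G]

/-- The crossing lemma: an invariant relative cone on `N` that is expanded by `x`, where `x` is
central modulo `N`, gives a right order on `E` which is not Conrad. -/
theorem crossing {E N N₀ : Subgroup G} {P P₀ : Set G} (hCC : CC E) (hP₀ : RC E ⊥ P₀)
    (hNE : N ≤ E) (hN : ∀ e ∈ E, ∀ n ∈ N, e * n * e⁻¹ ∈ N) (hP : RC N N₀ P)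
    (hc : ∀ e ∈ E, ∀ p ∈ P, e * p * e⁻¹ ∈ P) {x : G} (hxE : x ∈ E)
    (hx : ∀ e ∈ E, x * e * x⁻¹ * e⁻¹ ∈ N) {h : G} (hh : h ∈ P)
    (hH : x * h * x⁻¹ * h⁻¹ * h⁻¹ * h⁻¹ ∈ P ∨ x * h * x⁻¹ * h⁻¹ * h⁻¹ * h⁻¹ ∈ N₀) : False := by
  have hhN : h ∈ N := hP.sub h hh
  have hhE : h ∈ E := hNE hhN
  have hHN : x * h * x⁻¹ ∈ N := hN x hxE h hhN
  have hHP : x * h * x⁻¹ ∈ P := hc x hxE h hh
  set w : G := x⁻¹ * (x * h * x⁻¹)⁻¹ * (x * h * x⁻¹)⁻¹ with hw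
  -- multiplication of `P` by the element `H h⁻³`
  have hmul1 : ∀ a ∈ P, a * (x * h * x⁻¹ * h⁻¹ * h⁻¹ * h⁻¹) ∈ P := by
    intro a ha
    rcases hH with h1 | h1
    · exact hP.mul a ha _ h1
    · exact hP.rmul _ h1 a ha
  have hmul2 : ∀ a ∈ P, (x * h * x⁻¹ * h⁻¹ * h⁻¹ * h⁻¹) * a ∈ P := by
    intro a ha
    rcases hH with h1 | h1
    · exact hP.mul _ h1 a ha
    · exact hP.lmul _ h1 a ha
  have hwN : ∀ e ∈ E, w⁻¹ * (e⁻¹ * w * e) ∈ N := by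
    intro e he
    have e1 : w⁻¹ * (e⁻¹ * w * e) = (x * h * x⁻¹) * (x * h * x⁻¹) * (x * e⁻¹ * x⁻¹ * e⁻¹⁻¹) *
        (e⁻¹ * ((x * h * x⁻¹)⁻¹ * (x * h * x⁻¹)⁻¹) * e⁻¹⁻¹) := by
      rw [hw]
      simp only [mul_inv_rev, inv_inv, mul_assoc, inv_mul_cancel_left, mul_inv_cancel_left]
    rw [e1]
    exact N.mul_mem (N.mul_mem (N.mul_mem hHN hHN) (hx _ (E.inv_mem he)))
      (hN _ (E.inv_mem he) _ (N.mul_mem (N.inv_mem hHN) (N.inv_mem hHN)))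
  obtain ⟨S, hS, hQ⟩ := comm_rc hP hc w hwN
  set Q : Set G := {e | e ∈ E ∧ w⁻¹ * (e⁻¹ * w * e) ∈ P} with hQdef
  have hSE : S ≤ E := hQ.le
  have hres : RC S ⊥ (P₀ ∩ S) := by
    have := hP₀.inter S
    rwa [bot_inf_eq, inf_eq_right.2 hSE] at this
  have hcone := hQ.glue hres
  -- `H h⁻¹ ∈ P`
  have hHh : x * h * x⁻¹ * h⁻¹ ∈ P := by
    have := hmul2 (h * h) (hP.mul h hh h hh)
    have e1 : x * h * x⁻¹ * h⁻¹ * h⁻¹ * h⁻¹ * (h * h) = x * h * x⁻¹ * h⁻¹ := by group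
    rwa [e1] at this
  have hf : h⁻¹ ∈ Q := by
    refine ⟨E.inv_mem hhE, ?_⟩
    have e1 : w⁻¹ * (h⁻¹⁻¹ * w * h⁻¹) = x * h * x⁻¹ * h⁻¹ := by
      rw [hw]
      group
    rw [e1]
    exact hHh
  have hg : x * h⁻¹⁻¹ ∈ Q := by
    refine ⟨E.mul_mem hxE (E.inv_mem (E.inv_mem hhE)), ?_⟩
    have e1 : w⁻¹ * ((x * h⁻¹⁻¹)⁻¹ * w * (x * h⁻¹⁻¹)) = x * h * x⁻¹ * h⁻¹ := by
      rw [hw]
      group
    rw [e1]
    exact hHh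
  obtain ⟨m, hm, hm'⟩ := hCC _ hcone h⁻¹ x (Or.inl hf) (Or.inl hg)
  have hmE : h⁻¹ * x ^ m * h⁻¹⁻¹ * x⁻¹ ∈ E :=
    E.mul_mem (E.mul_mem (E.mul_mem (E.inv_mem hhE) (E.pow_mem hxE m))
      (E.inv_mem (E.inv_mem hhE))) (E.inv_mem hxE)
  refine hcone.not_inv hm' (Or.inl ⟨E.inv_mem hmE, ?_⟩)
  have e1 : w⁻¹ * (((h⁻¹ * x ^ m * h⁻¹⁻¹ * x⁻¹)⁻¹)⁻¹ * w * (h⁻¹ * x ^ m * h⁻¹⁻¹ * x⁻¹)⁻¹) =
      (h⁻¹ * x ^ m) * (((x ^ m)⁻¹ * (h * (x * h * x⁻¹)) * (x ^ m)⁻¹⁻¹) *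
        (x * h * x⁻¹ * h⁻¹ * h⁻¹ * h⁻¹)) * (h⁻¹ * x ^ m)⁻¹ := by
    rw [hw]
    group
  rw [e1]
  refine hc _ (E.mul_mem (E.inv_mem hhE) (E.pow_mem hxE m)) _ ?_
  exact hmul1 _ (hc _ (E.inv_mem (E.pow_mem hxE m)) _ (hP.mul _ hh _ hHP))

/-- In a group all of whose right orders are Conrad, every bi-order satisfies
`x h x⁻¹ < h³`. -/
theorem central_aux {P : Set G} (hC : PropC G) (hP : RC ⊤ ⊥ P) (hc : Cj P) (x h : G)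
    (hh : h ∈ P) : h * h * h * (x * h * x⁻¹)⁻¹ ∈ P := by
  have e1 : x * h * x⁻¹ * h⁻¹ * h⁻¹ * h⁻¹ = (h * h * h * (x * h * x⁻¹)⁻¹)⁻¹ := by group
  rcases hP.tot (h * h * h * (x * h * x⁻¹)⁻¹) (Subgroup.mem_top _) with h1 | h1 | h1
  · exact h1
  · exfalso
    refine crossing hC hP le_top (fun _ _ _ _ => Subgroup.mem_top _) hP (fun e _ p hp => hc e p hp)
      (Subgroup.mem_top x) (fun _ _ => Subgroup.mem_top _) hh (Or.inr ?_)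
    rw [e1]
    exact inv_mem h1
  · exfalso
    refine crossing hC hP le_top (fun _ _ _ _ => Subgroup.mem_top _) hP (fun e _ p hp => hc e p hp)
      (Subgroup.mem_top x) (fun _ _ => Subgroup.mem_top _) hh (Or.inl ?_)
    rw [e1]
    exact h1

end ConradExt
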