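import Mathlib

/-!
The definitions used in the statements about Conrad right orders.
-/

namespace ConradDefs

universe u

/-- `r` is (the strict part of) a right order: a strict total order preserved by multiplication
on the right. -/
def IsRightOrder {K : Type u} [Group K] (r : K → K → Prop) : Prop :=
  (∀ a, ¬ r a a) ∧ (∀ a b c, r a b → r b c → r a c) ∧ (∀ a b, r a b ∨ a = b ∨ r b a) ∧
    ∀ a b c, r a b → r (a * c) (b * c)

/-- The Conrad condition: if `1 < f < g` then `g < f g^m f⁻¹` for some positive integer `m`. -/
def IsConrad {K : Type u} [Group K] (r : K → K → Prop) : Prop :=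
  ∀ f g : K, r 1 f → r f g → ∃ m : ℕ, 0 < m ∧ r g (f * g ^ m * f⁻¹)

/-- Every right order on the group is a Conrad right order. -/
def AllConrad (K : Type u) [Group K] : Prop :=
  ∀ r : K → K → Prop, IsRightOrder r → IsConrad r

/-- The group has a total order invariant under multiplication on both sides. -/
def IsOrderable (K : Type u) [Group K] : Prop :=
  ∃ r : K → K → Prop, IsRightOrder r ∧ ∀ a b c, r a b → r (c * a) (c * b)

end ConradDefs
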