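import Pool.Agent.Lib.MP_7217b8_al.Basics

/-!
Intersections of relatively convex subgroups; the hull; minimality; lexicographic orders.
-/

namespace ConradExt

variable {G : Type*} [Group G]

/-- the lexicographic cone of a family -/
def lexCone {ι : Type*} (R : ι → Subgroup G) (P : ι → Set G) : Set G :=
  {g | ∃ i, g ∈ P i ∧ ∀ j, WellOrderingRel j i → g ∈ R j}

theorem lexCone_rc {ι : Type*} (R : ι → Subgroup G) (P : ι → Set G)
    (h : ∀ i, RC ⊤ (R i) (P i)) : RC ⊤ (⨅ i, R i) (lexCone R P) where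
  sub := fun _ _ => Subgroup.mem_top _
  le := le_top
  mul := by
    rintro a ⟨i, hai, ha⟩ b ⟨j, hbj, hb⟩
    rcases trichotomous_of (WellOrderingRel (α := ι)) i j with h1 | h1 | h1
    · exact ⟨i, (h i).rmul b (hb i h1) a hai, fun k hk =>
        (R k).mul_mem (ha k hk) (hb k (trans_of WellOrderingRel hk h1))⟩
    · subst h1
      exact ⟨i, (h i).mul a hai b hbj, fun k hk => (R k).mul_mem (ha k hk) (hb k hk)⟩
    · exact ⟨j, (h j).lmul a (ha j h1) b hbj, fun k hk =>
        (R k).mul_mem (ha k (trans_of WellOrderingRel hk h1)) (hb k hk)⟩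
  lmul := by
    rintro r hr a ⟨i, hai, ha⟩
    rw [Subgroup.mem_iInf] at hr
    exact ⟨i, (h i).lmul r (hr i) a hai, fun k hk => (R k).mul_mem (hr k) (ha k hk)⟩
  rmul := by
    rintro r hr a ⟨i, hai, ha⟩
    rw [Subgroup.mem_iInf] at hr
    exact ⟨i, (h i).rmul r (hr i) a hai, fun k hk => (R k).mul_mem (ha k hk) (hr k)⟩
  one := by
    rintro ⟨i, hi, _⟩
    exact (h i).one hi
  tot := by
    intro a _
    by_cases hall : ∀ i, a ∈ R i
    · exact Or.inr (Or.inl (by rw [Subgroup.mem_iInf]; exact hall))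
    · push Not at hall
      have hwf : WellFounded (WellOrderingRel (α := ι)) := IsWellFounded.wf
      obtain ⟨i, hi, hmin⟩ := hwf.has_min {i | a ∉ R i} hall
      have hlt : ∀ j, WellOrderingRel j i → a ∈ R j := by
        intro j hj
        by_contra hc
        exact hmin j hc hj
      rcases (h i).tot a (Subgroup.mem_top _) with h1 | h1 | h1
      · exact Or.inl ⟨i, h1, hlt⟩
      · exact absurd h1 hi
      · exact Or.inr (Or.inr ⟨i, h1, fun j hj => (R j).inv_mem (hlt j hj)⟩)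

theorem lexCone_cj {ι : Type*} (R : ι → Subgroup G) (P : ι → Set G)
    (h : ∀ i, RC ⊤ (R i) (P i)) (hc : ∀ i, Cj (P i)) : Cj (lexCone R P) := by
  rintro g a ⟨i, hai, ha⟩
  exact ⟨i, hc i g a hai, fun j hj => ((h j).normal_of_cj (hc j)).conj_mem a (ha j hj) g⟩

theorem relConvex_iInf {ι : Type*} (R : ι → Subgroup G) (h : ∀ i, RelConvex (R i)) :
    RelConvex (⨅ i, R i) := by
  choose P hP using h
  exact ⟨_, lexCone_rc R P hP⟩

theorem oConvex_iInf {ι : Type*} (R : ι → Subgroup G) (h : ∀ i, OConvex (R i)) :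
    OConvex (⨅ i, R i) := by
  choose P hP hc using h
  exact ⟨_, lexCone_rc R P hP, lexCone_cj R P hP hc⟩

theorem relConvex_sInf (S : Set (Subgroup G)) (h : ∀ R ∈ S, RelConvex R) :
    RelConvex (sInf S) := by
  rw [sInf_eq_iInf']
  exact relConvex_iInf _ fun i => h i.1 i.2

theorem oConvex_sInf (S : Set (Subgroup G)) (h : ∀ R ∈ S, OConvex R) :
    OConvex (sInf S) := by
  rw [sInf_eq_iInf']
  exact oConvex_iInf _ fun i => h i.1 i.2

theorem RelConvex.inf {R S : Subgroup G} (h : RelConvex R) (h' : RelConvex S) :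
    RelConvex (R ⊓ S) := by
  rw [← sInf_pair]
  apply relConvex_sInf
  rintro T (rfl | rfl)
  · exact h
  · exact h'

/-- the group is its own relatively convex hull of `X` -/
def Minl (X : Set G) : Prop := ∀ R : Subgroup G, RelConvex R → X ⊆ R → R = ⊤

theorem Minl.image {G' : Type*} [Group G'] {X : Set G} (h : Minl X) (f : G →* G')
    (hf : Function.Surjective f) : Minl (f '' X) := by
  intro R hR hX
  have h1 := h _ (hR.comap f) (by
    intro x hx
    exact hX ⟨x, hx, rfl⟩)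
  rw [eq_top_iff]
  intro y _
  obtain ⟨x, rfl⟩ := hf y
  have : x ∈ R.comap f := by rw [h1]; exact Subgroup.mem_top x
  exact this

/-- the relatively convex hull -/
def hull (X : Set G) : Subgroup G := sInf {R | RelConvex R ∧ X ⊆ R}

theorem relConvex_hull (X : Set G) : RelConvex (hull X) :=
  relConvex_sInf _ fun _ h => h.1

theorem subset_hull (X : Set G) : X ⊆ hull X := by
  intro x hx
  rw [hull, SetLike.mem_coe, Subgroup.mem_sInf]
  intro R hR
  exact hR.2 hx

theorem hull_minl (X : Set G) : Minl ((↑) ⁻¹' X : Set (hull X)) := by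
  intro R hR hX
  have h1 : hull X ≤ R.map (hull X).subtype := by
    apply sInf_le
    refine ⟨(relConvex_hull X).map_subtype hR, ?_⟩
    intro x hx
    exact ⟨⟨x, subset_hull X hx⟩, hX hx, rfl⟩
  rw [eq_top_iff]
  intro y _
  obtain ⟨z, hz, hzy⟩ := h1 y.2
  have : z = y := Subtype.ext hzy
  rwa [← this]

/-- commutator cones: `w` fixed, the elements `e` with `w⁻¹ e⁻¹ w e` in `P` -/
theorem comm_rc {E N N₀ : Subgroup G} {P : Set G} (hP : RC N N₀ P)
    (hc : ∀ e ∈ E, ∀ p ∈ P, e * p * e⁻¹ ∈ P) (w : G)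
    (hw : ∀ e ∈ E, w⁻¹ * (e⁻¹ * w * e) ∈ N) :
    ∃ S : Subgroup G, (∀ e, e ∈ S ↔ e ∈ E ∧ w⁻¹ * (e⁻¹ * w * e) ∈ N₀) ∧
      RC E S {e | e ∈ E ∧ w⁻¹ * (e⁻¹ * w * e) ∈ P} := by
  -- conjugation invariance of `P` by `e⁻¹ ... e`, and of `N₀`
  have hc' : ∀ e ∈ E, ∀ p ∈ P, e⁻¹ * p * e ∈ P := by
    intro e he p hp
    have := hc e⁻¹ (E.inv_mem he) p hp
    rwa [inv_inv] at this
  have key : ∀ a b : G, w⁻¹ * ((a * b)⁻¹ * w * (a * b)) =
      (w⁻¹ * (b⁻¹ * w * b)) * (b⁻¹ * (w⁻¹ * (a⁻¹ * w * a)) * b) := by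
    intro a b
    group
  have kinv : ∀ a : G, w⁻¹ * ((a⁻¹)⁻¹ * w * a⁻¹) = a * (w⁻¹ * (a⁻¹ * w * a))⁻¹ * a⁻¹ := by
    intro a
    group
  -- N₀ is invariant in N, for elements that remain in N
  have hN0 : ∀ e ∈ E, ∀ r ∈ N₀, e * r * e⁻¹ ∈ N → e * r * e⁻¹ ∈ N₀ := by
    intro e he r hr hN
    rcases hP.tot _ hN with h1 | h1 | h1
    · exfalso
      have := hc' e he _ h1
      have e2 : e⁻¹ * (e * r * e⁻¹) * e = r := by group
      rw [e2] at this
      exact hP.not_mem this hr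
    · exact h1
    · exfalso
      have := hc' e he _ h1
      have e2 : e⁻¹ * (e * r * e⁻¹)⁻¹ * e = r⁻¹ := by group
      rw [e2] at this
      exact hP.not_mem' this hr
  have hconjN : ∀ a ∈ E, ∀ b ∈ E, b⁻¹ * (w⁻¹ * (a⁻¹ * w * a)) * b ∈ N := by
    intro a ha b hb
    have h1 := hw (a * b) (E.mul_mem ha hb)
    rw [key] at h1
    exact (N.mul_mem_cancel_left (hw b hb)).1 h1
  have hinvN : ∀ a ∈ E, a * (w⁻¹ * (a⁻¹ * w * a))⁻¹ * a⁻¹ ∈ N := by
    intro a ha
    rw [← kinv]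
    exact hw _ (E.inv_mem ha)
  let S : Subgroup G :=
    { carrier := {e | e ∈ E ∧ w⁻¹ * (e⁻¹ * w * e) ∈ N₀}
      mul_mem' := by
        rintro a b ⟨ha, ha'⟩ ⟨hb, hb'⟩
        refine ⟨E.mul_mem ha hb, ?_⟩
        change w⁻¹ * ((a * b)⁻¹ * w * (a * b)) ∈ N₀
        rw [key]
        refine N₀.mul_mem hb' ?_
        have := hN0 b⁻¹ (E.inv_mem hb) _ ha' (by rw [inv_inv]; exact hconjN a ha b hb)
        rwa [inv_inv] at this
      one_mem' := by
        refine ⟨E.one_mem, ?_⟩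
        change w⁻¹ * (1⁻¹ * w * 1) ∈ N₀
        simp
      inv_mem' := by
        rintro a ⟨ha, ha'⟩
        refine ⟨E.inv_mem ha, ?_⟩
        change w⁻¹ * (a⁻¹⁻¹ * w * a⁻¹) ∈ N₀
        rw [kinv]
        exact hN0 a ha _ (N₀.inv_mem ha') (hinvN a ha) }
  have hS : ∀ e, e ∈ S ↔ e ∈ E ∧ w⁻¹ * (e⁻¹ * w * e) ∈ N₀ := fun e => Iff.rfl
  refine ⟨S, hS, ?_⟩
  refine ⟨fun a ha => ha.1, fun a ha => ((hS a).1 ha).1, ?_, ?_, ?_, ?_, ?_⟩
  · rintro a ⟨ha, ha'⟩ b ⟨hb, hb'⟩
    refine ⟨E.mul_mem ha hb, ?_⟩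
    rw [key]
    exact hP.mul _ hb' _ (hc' b hb _ ha')
  · rintro a ha b ⟨hb, hb'⟩
    rw [hS] at ha
    refine ⟨E.mul_mem ha.1 hb, ?_⟩
    rw [key]
    refine hP.rmul _ ?_ _ hb'
    have := hN0 b⁻¹ (E.inv_mem hb) _ ha.2 (by rw [inv_inv]; exact hconjN a ha.1 b hb)
    rwa [inv_inv] at this
  · rintro b hb a ⟨ha, ha'⟩
    rw [hS] at hb
    refine ⟨E.mul_mem ha hb.1, ?_⟩
    rw [key]
    exact hP.lmul _ hb.2 _ (hc' b hb.1 _ ha')
  · rintro ⟨_, h1⟩
    have : w⁻¹ * (1⁻¹ * w * 1) = 1 := by simp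
    rw [this] at h1
    exact hP.one h1
  · intro a ha
    rcases hP.tot _ (hw a ha) with h1 | h1 | h1
    · exact Or.inl ⟨ha, h1⟩
    · exact Or.inr (Or.inl ⟨ha, h1⟩)
    · refine Or.inr (Or.inr ⟨E.inv_mem ha, ?_⟩)
      rw [kinv]
      exact hc a ha _ h1

/-- relative centralisers of elements are relatively convex -/
theorem relConvex_relCentralizer {N : Subgroup G} (hN : OConvex N) (w : G) :
    ∃ S : Subgroup G, (∀ e, e ∈ S ↔ w⁻¹ * (e⁻¹ * w * e) ∈ N) ∧ RelConvex S := by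
  obtain ⟨P, hP, hc⟩ := hN
  obtain ⟨S, hS, hR⟩ := comm_rc (E := ⊤) hP (fun e _ p hp => hc e p hp) w
    (fun e _ => Subgroup.mem_top _)
  exact ⟨S, fun e => by rw [hS]; simp, _, hR⟩

theorem relConvex_centralizer_singleton (hO : PropO G) (w : G) :
    RelConvex (Subgroup.centralizer {w}) := by
  obtain ⟨S, hS, hR⟩ := relConvex_relCentralizer hO w
  have : S = Subgroup.centralizer {w} := by
    ext e
    rw [hS, Subgroup.mem_centralizer_singleton_iff, Subgroup.mem_bot]
    constructor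
    · intro h
      have h1 : e⁻¹ * w * e = w := by
        have := congrArg (fun t => w * t) h
        simpa [mul_assoc] using this
      have h2 := congrArg (fun t => e * t) h1
      simp only [mul_assoc] at h2
      rw [mul_inv_cancel_left] at h2
      exact h2.symm
    · intro h
      have : e⁻¹ * w * e = w := by
        rw [mul_assoc, ← h, inv_mul_cancel_left]
      rw [this, inv_mul_cancel]
  rw [← this]
  exact hR

theorem relConvex_centralizer (hO : PropO G) (S : Set G) :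
    RelConvex (Subgroup.centralizer S) := by
  have : Subgroup.centralizer S = ⨅ w : S, Subgroup.centralizer {w.1} := by
    ext e
    rw [Subgroup.mem_iInf, Subgroup.mem_centralizer_iff]
    constructor
    · intro h i
      rw [Subgroup.mem_centralizer_singleton_iff]
      exact (h i.1 i.2).symm
    · intro h w hw
      have := h ⟨w, hw⟩
      rw [Subgroup.mem_centralizer_singleton_iff] at this
      exact this.symm
  rw [this]
  exact relConvex_iInf _ fun i => relConvex_centralizer_singleton hO _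

theorem relConvex_center (hO : PropO G) : RelConvex (Subgroup.center G) := by
  rw [← Subgroup.centralizer_univ]
  exact relConvex_centralizer hO _

theorem PropO.propRO (h : PropO G) : PropRO G := OConvex.relConvex h

theorem PropO.sub (h : PropO G) (H : Subgroup G) : PropO H := by
  have := OConvex.comap H.subtype h
  rwa [MonoidHom.comap_bot, Subgroup.ker_subtype] at this

theorem OConvex.quot_propC (hC : PropC G) (hRO : PropRO G) (N : Subgroup G) [N.Normal] :
    PropC (G ⧸ N) :=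
  hC.of_surjective hRO (QuotientGroup.mk' N) (QuotientGroup.mk'_surjective N)

end ConradExt
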