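import Pool.Agent.Lib.MP_7217b8_al.Unip

/-!
The main induction: minimal groups with soluble generating subgroup are nilpotent.
-/

namespace ConradExt

universe u

/-- derived series inside an ambient group -/
def der {G : Type*} [Group G] (H : Subgroup G) : ℕ → Subgroup G
  | 0 => H
  | n + 1 => ⁅der H n, der H n⁆

theorem der_mono {G : Type*} [Group G] {H K : Subgroup G} (h : H ≤ K) (n : ℕ) :
    der H n ≤ der K n := by
  induction n with
  | zero => exact h
  | succ n ih => exact Subgroup.commutator_mono ih ih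

theorem der_map {G G' : Type*} [Group G] [Group G'] (f : G →* G') (H : Subgroup G) (n : ℕ) :
    der (H.map f) n = (der H n).map f := by
  induction n with
  | zero => rfl
  | succ n ih =>
    change ⁅der (H.map f) n, der (H.map f) n⁆ = (⁅der H n, der H n⁆).map f
    rw [ih, Subgroup.map_commutator]

theorem der_conj {G : Type*} [Group G] {H : Subgroup G} {g : G} (hg : g ∈ H) (n : ℕ) {b : G}
    (hb : b ∈ der H n) : g * b * g⁻¹ ∈ der H n := by
  have h1 : H.map (MulAut.conj g).toMonoidHom ≤ H := by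
    rintro _ ⟨h, hh, rfl⟩
    exact H.mul_mem (H.mul_mem hg hh) (H.inv_mem hg)
  have h2 := der_mono h1 n
  rw [der_map] at h2
  exact h2 ⟨b, hb, rfl⟩

theorem der_closure_image {G G' : Type*} [Group G] [Group G'] (f : G →* G') (X : Set G) (n : ℕ) :
    der (Subgroup.closure (f '' X)) n = (der (Subgroup.closure X) n).map f := by
  rw [← MonoidHom.map_closure, der_map]

theorem comm_of_commutator_bot {G : Type*} [Group G] {B : Subgroup G} (h : ⁅B, B⁆ = ⊥) :
    ∀ a ∈ B, ∀ b ∈ B, a * b = b * a := by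
  intro a ha b hb
  have h1 := Subgroup.commutator_mem_commutator ha hb
  rw [h, Subgroup.mem_bot, commutatorElement_eq_one_iff_mul_comm] at h1
  exact h1

theorem cs_of_wk {Y : Type*} [Group Y] {A : Subgroup Y} {hA : ∀ a ∈ A, ∀ b ∈ A, a * b = b * a}
    [A.Normal] (X : Set Y) : ∀ (N m : ℕ) (_ : ∀ f ∈ cs X m, f ∈ A)
    (_ : ∀ f ∈ cs X m, ∀ hfA : f ∈ A, wk (conjRep A hA) X N (toAb hA f hfA)),
    cs X (m + N) ⊆ {1}
  | 0, m, h1, h2 => by
    intro f hf
    have h3 : toAb hA f (h1 f hf) = 0 := h2 f hf (h1 f hf)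
    have h4 := congrArg AbG.val h3
    exact h4
  | N + 1, m, h1, h2 => by
    have h3 : ∀ f ∈ cs X (m + 1), f ∈ A := by
      rintro _ ⟨x, _, f, hf, rfl⟩
      exact A.mul_mem ((inferInstance : A.Normal).conj_mem f (h1 f hf) x) (A.inv_mem (h1 f hf))
    have h4 := cs_of_wk (A := A) (hA := hA) X N (m + 1) h3 (by
      rintro _ ⟨x, hx, f, hf, rfl⟩ hfA
      have h5 := h2 f hf (h1 f hf) x hx
      have h6 : toAb hA (x * f * x⁻¹ * f⁻¹) hfA =
          conjRep A hA x (toAb hA f (h1 f hf)) - toAb hA f (h1 f hf) := by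
        apply AbG.ext
        rw [conjRep_sub_val, toAb_val, toAb_val]
      rw [h6]
      exact h5)
    have e : m + (N + 1) = m + 1 + N := by ring
    rw [e]
    exact h4

theorem lemmaR (d : ℕ)
    (IH : ∀ (Y : Type u) [Group Y], PropC Y → PropO Y → ∀ X : Set Y, X.Finite → Minl X →
      der (Subgroup.closure X) d = ⊥ → Group.IsNilpotent Y)
    (Y : Type u) [Group Y] (hC : PropC Y) (hO : PropO Y) (X : Set Y) (hXf : X.Finite)
    (hX : Minl X) (hder : der (Subgroup.closure X) (d + 1) = ⊥)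
    (hres : ∀ y : Y, y ≠ 1 → ∃ D : Subgroup Y, OConvex D ∧ (∃ n, ∀ f ∈ cs X n, f ∈ D) ∧ y ∉ D) :
    ∃ m, cs X m ⊆ {1} := by
  set H := Subgroup.closure X with hH
  set B := der H d with hB
  have hBab : ∀ a ∈ B, ∀ b ∈ B, a * b = b * a := comm_of_commutator_bot hder
  have hXB : ∀ x ∈ X, ∀ b ∈ B, x⁻¹ * b * x ∈ B := by
    intro x hx b hb
    have := der_conj (H.inv_mem (Subgroup.subset_closure hx)) d hb
    rwa [inv_inv] at this
  have hloc : ∀ D : {D : Subgroup Y // OConvex D ∧ ∃ n, ∀ f ∈ cs X n, f ∈ D},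
      ∃ A : Subgroup Y, OConvex A ∧ B ≤ A ∧ ∀ a ∈ A, ∀ b ∈ A, a * b * a⁻¹ * b⁻¹ ∈ D.1 := by
    rintro ⟨D, hD, n, hn⟩
    have hDN := hD.normal
    have hnil : Group.IsNilpotent (Y ⧸ D) := by
      refine nilpotent_of_cs n (Y ⧸ D) (OConvex.quot_propC hC hO.propRO D) hD.propO
        (QuotientGroup.mk' D '' X) (hX.image _ (QuotientGroup.mk'_surjective D)) ?_
      rw [cs_image]
      rintro _ ⟨f, hf, rfl⟩
      rw [Set.mem_singleton_iff, QuotientGroup.mk'_apply, QuotientGroup.eq_one_iff]
      exact hn f hf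
    have hB'ab : ∀ a ∈ B.map (QuotientGroup.mk' D), ∀ b ∈ B.map (QuotientGroup.mk' D),
        a * b = b * a := by
      rintro _ ⟨a, ha, rfl⟩ _ ⟨b, hb, rfl⟩
      rw [← map_mul, hBab a ha b hb, map_mul]
    obtain ⟨h1, h2, h3⟩ := isol_nilpotent hD.propO (hX.image _ (QuotientGroup.mk'_surjective D))
      (B.map (QuotientGroup.mk' D)) hB'ab (by
        rintro _ ⟨x, hx, rfl⟩ _ ⟨b, hb, rfl⟩
        exact ⟨x⁻¹ * b * x, hXB x hx b hb, by simp⟩)
    refine ⟨_, h2.comap (QuotientGroup.mk' D), ?_, ?_⟩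
    · intro b hb
      exact h1 ⟨b, hb, rfl⟩
    · intro a ha b hb
      have h4 := h3 _ ha _ hb
      change a * b * a⁻¹ * b⁻¹ ∈ D
      rw [← QuotientGroup.eq_one_iff, QuotientGroup.mk_mul, QuotientGroup.mk_mul,
        QuotientGroup.mk_mul, QuotientGroup.mk_inv, QuotientGroup.mk_inv, mul_inv_eq_one,
        mul_inv_eq_iff_eq_mul]
      exact h4
  choose AD hAD1 hAD2 hAD3 using hloc
  set A : Subgroup Y := ⨅ D, AD D with hAdef
  have hAO : OConvex A := oConvex_iInf _ hAD1
  have hAN := hAO.normal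
  have hBA : B ≤ A := le_iInf hAD2
  have hA : ∀ a ∈ A, ∀ b ∈ A, a * b = b * a := by
    intro a ha b hb
    by_contra hne
    have h1 : a * b * a⁻¹ * b⁻¹ ≠ 1 := by
      intro h
      rw [mul_inv_eq_one, mul_inv_eq_iff_eq_mul] at h
      exact hne h
    obtain ⟨D, hD1, hD2, hD3⟩ := hres _ h1
    have ha' : a ∈ AD ⟨D, hD1, hD2⟩ := (Subgroup.mem_iInf.1 ha) _
    have hb' : b ∈ AD ⟨D, hD1, hD2⟩ := (Subgroup.mem_iInf.1 hb) _
    exact hD3 (hAD3 ⟨D, hD1, hD2⟩ a ha' b hb')
  -- the quotient by `A` is nilpotent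
  have hnilA : Group.IsNilpotent (Y ⧸ A) := by
    refine IH (Y ⧸ A) (OConvex.quot_propC hC hO.propRO A) hAO.propO (QuotientGroup.mk' A '' X)
      (hXf.image _) (hX.image _ (QuotientGroup.mk'_surjective A)) ?_
    rw [der_closure_image, eq_bot_iff]
    rintro _ ⟨b, hb, rfl⟩
    rw [Subgroup.mem_bot, QuotientGroup.mk'_apply, QuotientGroup.eq_one_iff]
    exact hBA hb
  obtain ⟨m, hm⟩ := exists_cs_of_nilpotent (QuotientGroup.mk' A '' X)
  have hmA : ∀ f ∈ cs X m, f ∈ A := by
    intro f hf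
    rw [cs_image] at hm
    have := hm ⟨f, hf, rfl⟩
    rwa [Set.mem_singleton_iff, QuotientGroup.mk'_apply, QuotientGroup.eq_one_iff] at this
  -- unipotence
  have hWd : ∀ s : AbG A hA, Wd (conjRep A hA) X ⊥ s := by
    intro s
    refine ul X hXf (fun z _ a => locally_unipotent hC hO hAO z a) m ⊤ ⊥ bot_le
      (fun _ _ _ _ => AddSubgroup.mem_top _) ?_ ?_ s (AddSubgroup.mem_top s)
    · intro g _ s hs
      rw [AddSubgroup.mem_bot] at hs ⊢
      rw [hs, map_zero]
    · intro z hz s _
      rw [AddSubgroup.mem_bot, conjRep_mem (hmA z hz)]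
      exact sub_self s
  have hwk : ∀ f : Y, ∃ N, ∀ hfA : f ∈ A, wk (conjRep A hA) X N (toAb hA f hfA) := by
    intro f
    by_cases hf : f ∈ A
    · obtain ⟨N, hN⟩ := exists_wk hXf (hWd (toAb hA f hf))
      exact ⟨N, fun _ => hN⟩
    · exact ⟨0, fun h => absurd h hf⟩
  choose N hN using hwk
  refine ⟨m + (cs_finite hXf m).toFinset.sup N, cs_of_wk (hA := hA) X _ m hmA ?_⟩
  intro f hf hfA
  refine wk_mono ?_ (hN f hfA)
  exact Finset.le_sup (f := N) (by simpa using hf)

theorem main_induction (d : ℕ) : ∀ (Y : Type u) [Group Y], PropC Y → PropO Y → ∀ X : Set Y,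
    X.Finite → Minl X → der (Subgroup.closure X) d = ⊥ → Group.IsNilpotent Y := by
  induction d with
  | zero =>
    intro Y _ hC hO X _ hX h
    refine nilpotent_of_cs 0 Y hC hO X hX ?_
    intro x hx
    have h1 : x ∈ der (Subgroup.closure X) 0 := Subgroup.subset_closure hx
    rw [h, Subgroup.mem_bot] at h1
    exact h1
  | succ d IH =>
    intro Y _ hC hO X hXf hX hder
    by_contra hnot
    have hcs : ∀ n, ¬ cs X n ⊆ {1} := fun n h => hnot (nilpotent_of_cs n Y hC hO X hX h)
    set Dfam : Set (Subgroup Y) := {D | OConvex D ∧ ∃ n, ∀ f ∈ cs X n, f ∈ D} with hDfam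
    set Dw : Subgroup Y := sInf Dfam with hDw
    have hDwO : OConvex Dw := oConvex_sInf _ fun D hD => hD.1
    have hDwN := hDwO.normal
    have hker : (QuotientGroup.mk' Dw).ker = Dw := QuotientGroup.ker_mk' Dw
    obtain ⟨m, hm⟩ := lemmaR d IH (Y ⧸ Dw) (OConvex.quot_propC hC hO.propRO Dw) hDwO.propO
      (QuotientGroup.mk' Dw '' X) (hXf.image _) (hX.image _ (QuotientGroup.mk'_surjective Dw))
      (by rw [der_closure_image, hder, Subgroup.map_bot]) (by
        intro q hq
        obtain ⟨y, rfl⟩ := QuotientGroup.mk'_surjective Dw q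
        have hy : y ∉ Dw := by
          intro h
          apply hq
          rw [QuotientGroup.mk'_apply, QuotientGroup.eq_one_iff]
          exact h
        have hex : ∃ D ∈ Dfam, y ∉ D := by
          by_contra hcon
          push Not at hcon
          exact hy (Subgroup.mem_sInf.2 hcon)
        obtain ⟨D, ⟨hD1, n, hn⟩, hyD⟩ := hex
        have hDwD : (QuotientGroup.mk' Dw).ker ≤ D := by
          rw [hker]
          exact sInf_le ⟨hD1, n, hn⟩
        refine ⟨D.map (QuotientGroup.mk' Dw), hD1.map _ (QuotientGroup.mk'_surjective Dw) hDwD,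
          ⟨n, ?_⟩, ?_⟩
        · rw [cs_image]
          rintro _ ⟨f, hf, rfl⟩
          exact ⟨f, hn f hf, rfl⟩
        · rintro ⟨z, hz, hzy⟩
          apply hyD
          have h1 : z⁻¹ * y ∈ (QuotientGroup.mk' Dw).ker := by
            rw [MonoidHom.mem_ker, map_mul, map_inv, hzy, inv_mul_cancel]
          have h2 := D.mul_mem hz (hDwD h1)
          rwa [mul_inv_cancel_left] at h2)
    have hmD : ∀ f ∈ cs X m, f ∈ Dw := by
      intro f hf
      rw [cs_image] at hm
      have := hm ⟨f, hf, rfl⟩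
      rwa [Set.mem_singleton_iff, QuotientGroup.mk'_apply, QuotientGroup.eq_one_iff] at this
    -- contradiction using a central order
    obtain ⟨lo, i1, i2, hcen⟩ := exists_cen hC hO
    have hne : (cs X m).Nonempty := by
      by_contra h
      rw [Set.not_nonempty_iff_eq_empty] at h
      exact hcs m (by rw [h]; exact Set.empty_subset _)
    obtain ⟨f, hf, hmax⟩ := Set.exists_max_image (cs X m) (fun f => max f f⁻¹) (cs_finite hXf m) hne
    set v := max f f⁻¹ with hv
    have hvD : v ∈ Dw := by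
      rcases max_choice f f⁻¹ with h | h
      · rw [hv, h]
        exact hmD f hf
      · rw [hv, h]
        exact Dw.inv_mem (hmD f hf)
    have hv1 : 1 < v := by
      have h1 : ∃ g ∈ cs X m, g ≠ 1 := by
        by_contra hcon
        push Not at hcon
        exact hcs m fun g hg => hcon g hg
      obtain ⟨g, hg, hg1⟩ := h1
      refine lt_of_lt_of_le ?_ (hmax g hg)
      rcases lt_or_gt_of_ne hg1 with h | h
      · exact lt_of_lt_of_le (one_lt_inv'.2 h) (le_max_right _ _)
      · exact lt_of_lt_of_le h (le_max_left _ _)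
    have hsm : small v hv1 ∈ Dfam := by
      refine ⟨(small_cvx hv1).oConvex hcen, m + 1, ?_⟩
      rintro _ ⟨x, _, g, hg, rfl⟩
      exact comm_mem_small' hcen hv1 ((le_max_left _ _).trans (hmax g hg))
        ((le_max_right _ _).trans (hmax g hg)) x
    exact not_mem_small hv1 ((sInf_le hsm : Dw ≤ _) hvD)

/-- If `G` is bi-orderable with all right orders Conrad, then every finite set generating a
soluble group is contained in a nilpotent (relatively convex) subgroup. -/
theorem hull_nilpotent {G : Type u} [Group G] (hC : PropC G) (hO : PropO G) (X : Set G)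
    (hX : X.Finite) (d : ℕ) (hd : der (Subgroup.closure X) d = ⊥) :
    Group.IsNilpotent (hull X) := by
  refine main_induction d (hull X) (hC.sub (relConvex_hull X)) (hO.sub _)
    ((↑) ⁻¹' X) ?_ (hull_minl X) ?_
  · exact hX.preimage Subtype.val_injective.injOn
  · have h1 : ((hull X).subtype '' ((↑) ⁻¹' X : Set (hull X))) = X := by
      ext x
      constructor
      · rintro ⟨y, hy, rfl⟩
        exact hy
      · intro hx
        exact ⟨⟨x, subset_hull X hx⟩, hx, rfl⟩
    have h2 := der_closure_image (hull X).subtype ((↑) ⁻¹' X : Set (hull X)) d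
    rw [h1, hd] at h2
    have h3 := h2.symm
    rwa [Subgroup.map_eq_bot_iff_of_injective _ (hull X).subtype_injective] at h3

end ConradExt
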