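import Pool.Agent.Lib.MP_7217b8_al.TorsionFree

/-!
Groups that are the relatively convex hull of a set with vanishing iterated commutators.
-/

namespace ConradExt

universe u

/-- iterated commutators of elements of `X` -/
def cs {G : Type*} [Group G] (X : Set G) : ℕ → Set G
  | 0 => X
  | n + 1 => {c | ∃ x ∈ X, ∃ f ∈ cs X n, c = x * f * x⁻¹ * f⁻¹}

theorem cs_image {G G' : Type*} [Group G] [Group G'] (f : G →* G') (X : Set G) (n : ℕ) :
    cs (f '' X) n = f '' cs X n := by
  induction n with
  | zero => rfl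
  | succ n ih =>
    ext c
    constructor
    · rintro ⟨x, ⟨y, hy, rfl⟩, g, hg, rfl⟩
      rw [ih] at hg
      obtain ⟨h, hh, rfl⟩ := hg
      exact ⟨y * h * y⁻¹ * h⁻¹, ⟨y, hy, h, hh, rfl⟩, by simp⟩
    · rintro ⟨_, ⟨y, hy, h, hh, rfl⟩, rfl⟩
      exact ⟨f y, ⟨y, hy, rfl⟩, f h, by rw [ih]; exact ⟨h, hh, rfl⟩, by simp⟩

theorem cs_finite {G : Type*} [Group G] {X : Set G} (hX : X.Finite) (n : ℕ) : (cs X n).Finite := by
  induction n with
  | zero => exact hX
  | succ n ih =>
    have : cs X (n + 1) ⊆ (fun p : G × G => p.1 * p.2 * p.1⁻¹ * p.2⁻¹) '' (X ×ˢ cs X n) := by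
      rintro c ⟨x, hx, f, hf, rfl⟩
      exact ⟨(x, f), ⟨hx, hf⟩, rfl⟩
    exact ((hX.prod ih).image _).subset this

theorem cs_subset_closure {G : Type*} [Group G] (X : Set G) (n : ℕ) :
    cs X n ⊆ Subgroup.closure X := by
  induction n with
  | zero => exact Subgroup.subset_closure
  | succ n ih =>
    rintro c ⟨x, hx, f, hf, rfl⟩
    have h1 := Subgroup.subset_closure hx
    have h2 := ih hf
    exact (Subgroup.closure X).mul_mem ((Subgroup.closure X).mul_mem
      ((Subgroup.closure X).mul_mem h1 h2) ((Subgroup.closure X).inv_mem h1))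
      ((Subgroup.closure X).inv_mem h2)

theorem cs_of_ucs {G : Type*} [Group G] (X : Set G) : ∀ (k m : ℕ),
    (∀ f ∈ cs X m, f ∈ Subgroup.upperCentralSeries G k) → cs X (m + k) ⊆ {1}
  | 0, m, h => by
    intro f hf
    have := h f hf
    rwa [Subgroup.upperCentralSeries_zero, Subgroup.mem_bot] at this
  | k + 1, m, h => by
    have h1 := cs_of_ucs X k (m + 1) (by
      rintro _ ⟨x, hx, f, hf, rfl⟩
      have h2 := Subgroup.mem_upperCentralSeries_succ_iff.1 (h f hf) x
      rw [commutatorElement_def] at h2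
      have h3 := Subgroup.inv_mem _ h2
      have e : (f * x * f⁻¹ * x⁻¹)⁻¹ = x * f * x⁻¹ * f⁻¹ := by group
      rwa [e] at h3)
    have e : m + (k + 1) = m + 1 + k := by ring
    rw [e]
    exact h1

theorem exists_cs_of_nilpotent {G : Type*} [Group G] [Group.IsNilpotent G] (X : Set G) :
    ∃ n, cs X n ⊆ {1} := by
  obtain ⟨c, hc⟩ := Group.IsNilpotent.nilpotent G
  refine ⟨0 + c, cs_of_ucs X c 0 fun f _ => ?_⟩
  rw [hc]
  exact Subgroup.mem_top f

theorem nilpotent_of_cs (n : ℕ) : ∀ (Y : Type u) [Group Y], PropC Y → PropO Y → ∀ X : Set Y,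
    Minl X → cs X n ⊆ {1} → Group.IsNilpotent Y := by
  induction n with
  | zero =>
    intro Y _ hC hO X hX h
    have h1 : (⊥ : Subgroup Y) = ⊤ := hX ⊥ hO.propRO (by
      intro x hx
      have := h hx
      rw [Set.mem_singleton_iff] at this
      rw [SetLike.mem_coe, Subgroup.mem_bot, this])
    have : Subsingleton Y := by
      refine ⟨fun a b => ?_⟩
      have ha : a ∈ (⊥ : Subgroup Y) := by rw [h1]; exact Subgroup.mem_top a
      have hb : b ∈ (⊥ : Subgroup Y) := by rw [h1]; exact Subgroup.mem_top b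
      rw [Subgroup.mem_bot] at ha hb
      rw [ha, hb]
    infer_instance
  | succ n ih =>
    intro Y _ hC hO X hX h
    have hcen : ∀ f ∈ cs X n, f ∈ Subgroup.center Y := by
      intro f hf
      have h1 : Subgroup.centralizer {f} = ⊤ := by
        apply hX _ (relConvex_centralizer_singleton hO f)
        intro x hx
        rw [SetLike.mem_coe, Subgroup.mem_centralizer_singleton_iff]
        have := h ⟨x, hx, f, hf, rfl⟩
        rw [Set.mem_singleton_iff, mul_inv_eq_one, mul_inv_eq_iff_eq_mul] at this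
        exact this
      rw [Subgroup.mem_center_iff]
      intro g
      have : g ∈ Subgroup.centralizer {f} := by rw [h1]; exact Subgroup.mem_top g
      rwa [Subgroup.mem_centralizer_singleton_iff] at this
    have h1 : Group.IsNilpotent (Y ⧸ Subgroup.center Y) := by
      refine ih (Y ⧸ Subgroup.center Y) (OConvex.quot_propC hC hO.propRO _)
        (oConvex_center hC hO).propO
        ((QuotientGroup.mk' (Subgroup.center Y)) '' X) (hX.image _ (QuotientGroup.mk'_surjective _))
        ?_
      rw [cs_image]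
      rintro _ ⟨f, hf, rfl⟩
      rw [Set.mem_singleton_iff, QuotientGroup.mk'_apply, QuotientGroup.eq_one_iff]
      exact hcen f hf
    exact Group.of_quotient_center_nilpotent h1

end ConradExt
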