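import Pool.Agent.Lib.MP_7217b8_al.Crossing

/-!
Bi-ordered groups; convex subgroups; centrality of the orders.
-/

set_option linter.unusedSectionVars false
set_option linter.unnecessarySimpa false
set_option linter.style.haveILetI false

namespace ConradExt

variable {G : Type*} [Group G]

/-- a bi-invariant cone gives a linear order -/
theorem exists_order_of_cone {P : Set G} (hP : RC ⊤ ⊥ P) (hc : Cj P) :
    ∃ _ : LinearOrder G, MulLeftMono G ∧ MulRightMono G ∧ ∀ a b : G, a < b ↔ b * a⁻¹ ∈ P := by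
  classical
  let le : G → G → Prop := fun a b => a = b ∨ b * a⁻¹ ∈ P
  have hlt : ∀ a b : G, b * a⁻¹ ∈ P → ¬ le b a := by
    intro a b h1 h2
    rcases h2 with h2 | h2
    · subst h2
      rw [mul_inv_cancel] at h1
      exact hP.one h1
    · apply hP.not_inv h1
      rwa [mul_inv_rev, inv_inv]
  letI lo : LinearOrder G :=
    { le := le
      le_refl := fun a => Or.inl rfl
      le_trans := by
        rintro a b c (h1 | h1) (h2 | h2)
        · exact Or.inl (h1.trans h2)
        · subst h1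
          exact Or.inr h2
        · subst h2
          exact Or.inr h1
        · refine Or.inr ?_
          have := hP.mul _ h2 _ h1
          rwa [mul_assoc, inv_mul_cancel_left] at this
      le_antisymm := by
        rintro a b (h1 | h1) h2
        · exact h1
        · exact absurd h2 (hlt a b h1)
      le_total := by
        intro a b
        rcases hP.tot (b * a⁻¹) (Subgroup.mem_top _) with h1 | h1 | h1
        · exact Or.inl (Or.inr h1)
        · rw [Subgroup.mem_bot, mul_inv_eq_one] at h1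
          exact Or.inl (Or.inl h1.symm)
        · rw [mul_inv_rev, inv_inv] at h1
          exact Or.inr (Or.inr h1)
      toDecidableLE := Classical.decRel _ }
  refine ⟨lo, ⟨?_⟩, ⟨?_⟩, ?_⟩
  · rintro a b c (h | h)
    · subst h
      exact Or.inl rfl
    · refine Or.inr ?_
      have := hc a _ h
      have e : a * c * (a * b)⁻¹ = a * (c * b⁻¹) * a⁻¹ := by group
      change a * c * (a * b)⁻¹ ∈ P
      rw [e]
      exact this
  · rintro a b c (h | h)
    · subst h
      exact Or.inl rfl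
    · refine Or.inr ?_
      change c * a * (b * a)⁻¹ ∈ P
      have e : c * a * (b * a)⁻¹ = c * b⁻¹ := by group
      rw [e]
      exact h
  · intro a b
    rw [lt_iff_le_not_ge]
    constructor
    · rintro ⟨h1 | h1, h2⟩
      · exact absurd (Or.inl h1.symm) h2
      · exact h1
    · intro h
      exact ⟨Or.inr h, hlt a b h⟩

section Ordered

variable [LinearOrder G] [MulLeftMono G] [MulRightMono G]

theorem one_lt_mul2 {a b : G} (ha : 1 < a) (hb : 1 < b) : 1 < a * b := one_lt_mul'' ha hb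

theorem conj_lt {a b : G} (x : G) (h : a < b) : x * a * x⁻¹ < x * b * x⁻¹ :=
  mul_lt_mul_left (mul_lt_mul_right h x) x⁻¹

theorem conj_le {a b : G} (x : G) (h : a ≤ b) : x * a * x⁻¹ ≤ x * b * x⁻¹ :=
  mul_le_mul_left (mul_le_mul_right h x) x⁻¹

theorem conj_pos {a : G} (x : G) (h : 1 < a) : 1 < x * a * x⁻¹ := by
  have := conj_lt x h
  simpa using this

theorem pos_cone : RC (⊤ : Subgroup G) ⊥ {a | 1 < a} where
  sub := fun _ _ => Subgroup.mem_top _
  le := le_top
  mul := fun a ha b hb => one_lt_mul2 ha hb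
  lmul := fun r hr a ha => by
    rw [Subgroup.mem_bot] at hr
    rw [hr, one_mul]
    exact ha
  rmul := fun r hr a ha => by
    rw [Subgroup.mem_bot] at hr
    rw [hr, mul_one]
    exact ha
  one := lt_irrefl 1
  tot := fun a _ => by
    rcases lt_trichotomy 1 a with h | h | h
    · exact Or.inl h
    · exact Or.inr (Or.inl (by rw [Subgroup.mem_bot]; exact h.symm))
    · exact Or.inr (Or.inr (one_lt_inv'.2 h))

theorem pos_cj : Cj {a : G | 1 < a} := fun g _ hp => conj_pos g hp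

/-- convex subgroups -/
def IsCvx (U : Subgroup G) : Prop := ∀ a b : G, 1 ≤ a → a ≤ b → b ∈ U → a ∈ U

variable (G) in
/-- all conjugates of `h > 1` are smaller than `h³` -/
def Cen : Prop := ∀ x h : G, 1 < h → x * h * x⁻¹ < h * h * h

theorem exists_pos_of_not_mem {U : Subgroup G} {a : G} (ha : a ∉ U) :
    ∃ b, (b = a ∨ b = a⁻¹) ∧ 1 < b ∧ b ∉ U := by
  rcases lt_trichotomy 1 a with h | h | h
  · exact ⟨a, Or.inl rfl, h, ha⟩
  · exact absurd (h ▸ U.one_mem) ha
  · exact ⟨a⁻¹, Or.inr rfl, one_lt_inv'.2 h, fun h' => ha (by simpa using U.inv_mem h')⟩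

theorem le_of_pos {U V : Subgroup G} (h : ∀ a, 1 < a → a ∈ U → a ∈ V) : U ≤ V := by
  intro a ha
  rcases lt_trichotomy 1 a with h1 | h1 | h1
  · exact h a h1 ha
  · exact h1 ▸ V.one_mem
  · have := h a⁻¹ (one_lt_inv'.2 h1) (U.inv_mem ha)
    simpa using V.inv_mem this

theorem IsCvx.total {U V : Subgroup G} (hU : IsCvx U) (hV : IsCvx V) : U ≤ V ∨ V ≤ U := by
  by_cases h : U ≤ V
  · exact Or.inl h
  · right
    obtain ⟨u, huU, huV⟩ := SetLike.not_le_iff_exists.1 h
    obtain ⟨b, hb, hb1, hbV⟩ := exists_pos_of_not_mem huV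
    have hbU : b ∈ U := by
      rcases hb with rfl | rfl
      · exact huU
      · exact U.inv_mem huU
    refine le_of_pos fun a ha haV => ?_
    rcases le_total a b with h1 | h1
    · exact hU a b ha.le h1 hbU
    · exact absurd (hV b a hb1.le h1 haV) hbV

theorem IsCvx.normal (hcen : Cen G) {U : Subgroup G} (hU : IsCvx U) : U.Normal where
  conj_mem := by
    intro a ha x
    have key : ∀ b, 1 < b → b ∈ U → x * b * x⁻¹ ∈ U := by
      intro b hb hbU
      exact hU _ _ (conj_pos x hb).le (hcen x b hb).le (U.mul_mem (U.mul_mem hbU hbU) hbU)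
    rcases lt_trichotomy 1 a with h1 | h1 | h1
    · exact key a h1 ha
    · rw [← h1]
      simpa using U.one_mem
    · have := U.inv_mem (key a⁻¹ (one_lt_inv'.2 h1) (U.inv_mem ha))
      have e : (x * a⁻¹ * x⁻¹)⁻¹ = x * a * x⁻¹ := by group
      rwa [e] at this

/-- elements above the convex subgroup -/
theorem IsCvx.lt_of {U : Subgroup G} (hU : IsCvx U) {a r : G} (ha : 1 < a) (haU : a ∉ U)
    (hr : r ∈ U) : r < a := by
  by_contra h
  push Not at h
  exact haU (hU a r ha.le h hr)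

theorem IsCvx.oConvex (hcen : Cen G) {U : Subgroup G} (hU : IsCvx U) : OConvex U := by
  have hN := hU.normal hcen
  refine ⟨{a | 1 < a ∧ a ∉ U}, ⟨fun _ _ => Subgroup.mem_top _, le_top, ?_, ?_, ?_, ?_, ?_⟩, ?_⟩
  · rintro a ⟨ha, haU⟩ b ⟨hb, hbU⟩
    refine ⟨one_lt_mul2 ha hb, fun h => haU ?_⟩
    refine hU a (a * b) ha.le ?_ h
    exact le_mul_of_one_le_right' hb.le
  · rintro r hr a ⟨ha, haU⟩
    refine ⟨?_, fun h => haU ((U.mul_mem_cancel_left hr).1 h)⟩
    have := hU.lt_of ha haU (U.inv_mem hr)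
    exact inv_lt_iff_one_lt_mul'.1 this
  · rintro r hr a ⟨ha, haU⟩
    refine ⟨?_, fun h => haU ((U.mul_mem_cancel_right hr).1 h)⟩
    have := hU.lt_of ha haU (U.inv_mem hr)
    exact inv_lt_iff_one_lt_mul.1 this
  · rintro ⟨h, _⟩
    exact lt_irrefl _ h
  · intro a _
    by_cases haU : a ∈ U
    · exact Or.inr (Or.inl haU)
    · rcases lt_trichotomy 1 a with h1 | h1 | h1
      · exact Or.inl ⟨h1, haU⟩
      · exact absurd (h1 ▸ U.one_mem) haU
      · exact Or.inr (Or.inr ⟨one_lt_inv'.2 h1, fun h => haU (by simpa using U.inv_mem h)⟩)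
  · rintro g a ⟨ha, haU⟩
    refine ⟨conj_pos g ha, fun h => haU ?_⟩
    have := hN.conj_mem _ h g⁻¹
    have e : g⁻¹ * (g * a * g⁻¹) * g⁻¹⁻¹ = a := by group
    rwa [e] at this

theorem zpow_lt_of_small {v c : G} (hc : ∀ n : ℕ, c ^ n < v) (hc1 : 1 ≤ c) (n : ℤ) :
    c ^ n < v := by
  rcases le_total 0 n with h | h
  · obtain ⟨k, rfl⟩ := Int.eq_ofNat_of_zero_le h
    rw [zpow_natCast]
    exact hc k
  · refine lt_of_le_of_lt ?_ (hc 0)
    rw [pow_zero]
    obtain ⟨k, hk⟩ := Int.eq_ofNat_of_zero_le (neg_nonneg.2 h)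
    have : n = -(k : ℤ) := by omega
    rw [this, zpow_neg, zpow_natCast]
    exact inv_le_one'.2 (one_le_pow_of_one_le' hc1 k)

/-- The largest convex subgroup not containing `v > 1`. -/
def small (v : G) (hv : 1 < v) : Subgroup G where
  carrier := {u | ∀ n : ℤ, u ^ n < v}
  one_mem' := by
    intro n
    rw [one_zpow]
    exact hv
  inv_mem' := by
    intro u hu n
    have := hu (-n)
    rwa [zpow_neg, ← inv_zpow] at this
  mul_mem' := by
    intro a b ha hb
    -- `m` is the larger of `|a|`, `|b|`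
    have hex : ∀ u : G, (∀ n : ℤ, u ^ n < v) → ∃ c, 1 ≤ c ∧ u ≤ c ∧ u⁻¹ ≤ c ∧ ∀ n : ℕ, c ^ n < v := by
      intro u hu
      rcases le_total 1 u with h | h
      · exact ⟨u, h, le_rfl, (inv_le_one'.2 h).trans h, fun n => by
          have := hu n
          rwa [zpow_natCast] at this⟩
      · refine ⟨u⁻¹, one_le_inv'.2 h, h.trans (one_le_inv'.2 h), le_rfl, fun n => ?_⟩
        have := hu (-n)
        rwa [zpow_neg, zpow_natCast, ← inv_pow] at this
    obtain ⟨c, hc1, hac, hac', hcv⟩ := hex a ha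
    obtain ⟨d, hd1, hbd, hbd', hdv⟩ := hex b hb
    have hm : ∃ m, 1 ≤ m ∧ a ≤ m ∧ a⁻¹ ≤ m ∧ b ≤ m ∧ b⁻¹ ≤ m ∧ ∀ n : ℕ, m ^ n < v := by
      rcases le_total c d with h | h
      · exact ⟨d, hd1, hac.trans h, hac'.trans h, hbd, hbd', hdv⟩
      · exact ⟨c, hc1, hac, hac', hbd.trans h, hbd'.trans h, hcv⟩
    obtain ⟨m, hm1, ham, ham', hbm, hbm', hmv⟩ := hm
    have h1 : a * b ≤ m ^ 2 := by
      rw [pow_two]
      exact mul_le_mul' ham hbm
    have h2 : (a * b)⁻¹ ≤ m ^ 2 := by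
      rw [pow_two, mul_inv_rev]
      exact mul_le_mul' hbm' ham'
    intro n
    rcases le_total 0 n with h | h
    · obtain ⟨k, rfl⟩ := Int.eq_ofNat_of_zero_le h
      rw [zpow_natCast]
      refine lt_of_le_of_lt (pow_le_pow_left' h1 k) ?_
      rw [← pow_mul]
      exact hmv _
    · obtain ⟨k, hk⟩ := Int.eq_ofNat_of_zero_le (neg_nonneg.2 h)
      have : n = -(k : ℤ) := by omega
      rw [this, zpow_neg, zpow_natCast, ← inv_pow]
      refine lt_of_le_of_lt (pow_le_pow_left' h2 k) ?_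
      rw [← pow_mul]
      exact hmv _

theorem mem_small {v : G} (hv : 1 < v) {u : G} : u ∈ small v hv ↔ ∀ n : ℤ, u ^ n < v := Iff.rfl

theorem small_cvx {v : G} (hv : 1 < v) : IsCvx (small v hv) := by
  intro a b ha hab hb
  rw [mem_small] at hb ⊢
  apply zpow_lt_of_small _ ha
  intro n
  refine lt_of_le_of_lt (pow_le_pow_left' hab n) ?_
  have := hb n
  rwa [zpow_natCast] at this

theorem not_mem_small {v : G} (hv : 1 < v) : v ∉ small v hv := by
  intro h
  have := h 1
  rw [zpow_one] at this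
  exact lt_irrefl _ this

theorem small_mono {v w : G} (hv : 1 < v) (hw : 1 < w) (h : v ≤ w) : small v hv ≤ small w hw :=
  fun _ hu n => lt_of_lt_of_le (hu n) h

theorem pow_not_mem_small {v : G} (hv : 1 < v) {n : ℤ} (hn : n ≠ 0) :
    v ^ n ∉ small v hv := by
  intro h
  have key : ∀ k : ℕ, 0 < k → ¬ (v ^ k < v) := by
    intro k hk
    rw [not_lt]
    obtain ⟨j, rfl⟩ : ∃ j, k = j + 1 := ⟨k - 1, by omega⟩
    rw [pow_succ]
    exact le_mul_of_one_le_left' (one_le_pow_of_one_le' hv.le j)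
  have h1 := h 1
  have h2 := h (-1)
  rw [zpow_one] at h1
  rw [zpow_neg, zpow_one, ← zpow_neg] at h2
  rcases lt_or_gt_of_ne hn with h3 | h3
  · obtain ⟨k, hk⟩ := Int.eq_ofNat_of_zero_le (neg_nonneg.2 h3.le)
    rw [hk, zpow_natCast] at h2
    exact key k (by omega) h2
  · obtain ⟨k, hk⟩ := Int.eq_ofNat_of_zero_le h3.le
    rw [hk, zpow_natCast] at h1
    exact key k (by omega) h1

/-- iterated conjugation -/
theorem conj_pow_eq (x a : G) (n : ℕ) : x * a ^ n * x⁻¹ = (x * a * x⁻¹) ^ n := by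
  rw [conj_pow]

/-- The key estimate: commutators `[h,v] > 1` are infinitely smaller than `v > 1`. -/
theorem comm_lt (hcen : Cen G) {v h : G} (hv : 1 < v) (hw : 1 < h * v * h⁻¹ * v⁻¹) (n : ℕ) :
    (h * v * h⁻¹ * v⁻¹) ^ n < v := by
  by_contra hcon
  push Not at hcon
  set w := h * v * h⁻¹ * v⁻¹ with hwdef
  have hmono : ∀ k : ℕ, ∃ c : G, 1 < c ∧ v ≤ c ^ n ∧ c ^ k * v ≤ h ^ k * v * (h ^ k)⁻¹ := by
    intro k
    induction k with
    | zero => exact ⟨w, hw, hcon, by simp⟩
    | succ k ih =>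
      obtain ⟨c, hc1, hcn, hck⟩ := ih
      set d := h ^ k * w * (h ^ k)⁻¹ with hd
      have hd1 : 1 < d := conj_pos _ hw
      have hdn : v ≤ d ^ n := by
        have h1 : h ^ k * v * (h ^ k)⁻¹ ≤ d ^ n := by
          rw [hd, conj_pow]
          exact conj_le _ hcon
        refine le_trans ?_ (hck.trans h1)
        exact le_mul_of_one_le_left' (one_le_pow_of_one_le' hc1.le k)
      have hstep : d * (h ^ k * v * (h ^ k)⁻¹) = h ^ (k + 1) * v * (h ^ (k + 1))⁻¹ := by
        rw [hd, hwdef, pow_succ]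
        group
      have hfin : ∀ e : G, e ≤ c → e ≤ d → 1 < e →
          e ^ (k + 1) * v ≤ h ^ (k + 1) * v * (h ^ (k + 1))⁻¹ := by
        intro e hec hed he1
        rw [← hstep, pow_succ', mul_assoc]
        refine mul_le_mul' hed ?_
        refine le_trans ?_ hck
        exact mul_le_mul' (pow_le_pow_left' hec k) le_rfl
      rcases le_total c d with h1 | h1
      · exact ⟨c, hc1, hcn, hfin c le_rfl h1 hc1⟩
      · exact ⟨d, hd1, hdn, hfin d h1 le_rfl hd1⟩
  obtain ⟨c, hc1, hcn, hck⟩ := hmono (n * 3)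
  have h1 := hcen (h ^ (n * 3)) v hv
  have h2 : v * v * v ≤ c ^ (n * 3) * v := by
    rw [pow_mul, pow_succ, pow_two]
    have h3 : v * v * v ≤ c ^ n * c ^ n * v := mul_le_mul' (mul_le_mul' hcn hcn) le_rfl
    have h4 : c ^ n * c ^ n * v ≤ c ^ n * c ^ n * c ^ n * v :=
      mul_le_mul' (le_mul_of_one_le_right' (one_le_pow_of_one_le' hc1.le n)) le_rfl
    exact h3.trans h4
  exact absurd (lt_of_lt_of_le h1 (h2.trans hck)) (lt_irrefl _)

theorem comm_mem_small (hcen : Cen G) {v : G} (hv : 1 < v) (h : G) :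
    h * v * h⁻¹ * v⁻¹ ∈ small v hv := by
  have pos_case : ∀ h : G, 1 < h * v * h⁻¹ * v⁻¹ → h * v * h⁻¹ * v⁻¹ ∈ small v hv := by
    intro h hw
    rw [mem_small]
    exact zpow_lt_of_small (comm_lt hcen hv hw) hw.le
  rcases lt_trichotomy 1 (h * v * h⁻¹ * v⁻¹) with h1 | h1 | h1
  · exact pos_case h h1
  · rw [← h1]
    exact Subgroup.one_mem _
  · -- `h v h⁻¹ < v`
    have h2 : 1 < h⁻¹ * v * h⁻¹⁻¹ * v⁻¹ := by
      have h3 := conj_lt h⁻¹ h1
      have h4 : h⁻¹ * (h * v * h⁻¹ * v⁻¹) * h⁻¹⁻¹ = v * (h⁻¹ * v * h⁻¹⁻¹)⁻¹ := by group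
      rw [h4] at h3
      simp only [mul_one, mul_inv_cancel] at h3
      have h5 := one_lt_inv'.2 h3
      rwa [mul_inv_rev, inv_inv] at h5
    have h3 := pos_case h⁻¹ h2
    have hN := (small_cvx hv).normal hcen
    have h4 := Subgroup.inv_mem _ (hN.conj_mem _ h3 h)
    have h5 : (h * (h⁻¹ * v * h⁻¹⁻¹ * v⁻¹) * h⁻¹)⁻¹ = h * v * h⁻¹ * v⁻¹ := by group
    rwa [h5] at h4

/-- a version for arbitrary `v ≠ 1` -/
theorem comm_mem_small' (hcen : Cen G) {v y : G} (hv : 1 < v) (hy : y ≤ v) (hy' : y⁻¹ ≤ v)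
    (h : G) : h * y * h⁻¹ * y⁻¹ ∈ small v hv := by
  rcases lt_trichotomy 1 y with h1 | h1 | h1
  · exact small_mono h1 hv hy (comm_mem_small hcen h1 h)
  · rw [← h1]
    simpa using Subgroup.one_mem _
  · have h2 := one_lt_inv'.2 h1
    have h3 := small_mono h2 hv hy' (comm_mem_small hcen h2 h)
    have hN := (small_cvx hv).normal hcen
    have h4 := Subgroup.inv_mem _ (hN.conj_mem _ h3 y)
    have h5 : (y * (h * y⁻¹ * h⁻¹ * y⁻¹⁻¹) * y⁻¹)⁻¹ = h * y * h⁻¹ * y⁻¹ := by group
    rwa [h5] at h4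

/-- commutators generate smaller convex subgroups -/
theorem exists_small (hcen : Cen G) {v : G} (hv : v ≠ 1) :
    ∃ U : Subgroup G, IsCvx U ∧ v ∉ U ∧ ∀ h : G, h * v * h⁻¹ * v⁻¹ ∈ U := by
  rcases lt_or_gt_of_ne hv with h1 | h1
  · have h2 := one_lt_inv'.2 h1
    refine ⟨small v⁻¹ h2, small_cvx h2, fun h => not_mem_small h2 (Subgroup.inv_mem _ h),
      comm_mem_small' hcen h2 (h1.le.trans h2.le) le_rfl⟩
  · exact ⟨small v h1, small_cvx h1, not_mem_small h1, comm_mem_small hcen h1⟩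

end Ordered

/-- In a bi-orderable group with all right orders Conrad, all bi-orders are central. -/
theorem exists_cen (hC : PropC G) (hO : PropO G) :
    ∃ _ : LinearOrder G, MulLeftMono G ∧ MulRightMono G ∧ Cen G := by
  obtain ⟨P, hP, hc⟩ := hO
  obtain ⟨lo, h1, h2, h3⟩ := exists_order_of_cone hP hc
  refine ⟨lo, h1, h2, ?_⟩
  intro x h hh
  rw [h3, inv_one, mul_one] at hh
  rw [h3]
  exact central_aux hC hP hc x h hh

end ConradExt
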