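import Pool.Agent.Lib.MP_7217b8_al.Main
import Pool.Agent.Lib.MP_7217b8_al.Defs

/-!
Right orders as relations, versus cones; Conrad orders on nilpotent groups.
-/

set_option linter.unusedTactic false

namespace ConradExt

open ConradDefs

universe u v

section Conversion

variable {K : Type u} [Group K]

theorem right_iff {r : K → K → Prop} (hr : IsRightOrder r) (a b : K) :
    r a b ↔ r 1 (b * a⁻¹) := by
  constructor
  · intro h
    have := hr.2.2.2 a b a⁻¹ h
    rwa [mul_inv_cancel] at this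
  · intro h
    have := hr.2.2.2 1 (b * a⁻¹) a h
    rwa [one_mul, inv_mul_cancel_right] at this

theorem rc_of_rightOrder {r : K → K → Prop} (hr : IsRightOrder r) :
    RC (⊤ : Subgroup K) ⊥ {a | r 1 a} where
  sub := fun _ _ => Subgroup.mem_top _
  le := le_top
  mul := fun a ha b hb => by
    have h1 := hr.2.2.2 1 a b ha
    rw [one_mul] at h1
    exact hr.2.1 1 b (a * b) hb h1
  lmul := fun c hc a ha => by
    rw [Subgroup.mem_bot] at hc
    rwa [hc, one_mul]
  rmul := fun c hc a ha => by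
    rw [Subgroup.mem_bot] at hc
    rwa [hc, mul_one]
  one := hr.1 1
  tot := fun a _ => by
    rcases hr.2.2.1 1 a with h | h | h
    · exact Or.inl h
    · exact Or.inr (Or.inl (by rw [Subgroup.mem_bot]; exact h.symm))
    · refine Or.inr (Or.inr ?_)
      have := hr.2.2.2 a 1 a⁻¹ h
      rwa [mul_inv_cancel, one_mul] at this

theorem rightOrder_of_rc {P : Set K} (hP : RC (⊤ : Subgroup K) ⊥ P) :
    IsRightOrder (fun a b => b * a⁻¹ ∈ P) := by
  refine ⟨?_, ?_, ?_, ?_⟩
  · intro a h
    rw [mul_inv_cancel] at h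
    exact hP.one h
  · intro a b c h1 h2
    have := hP.mul _ h2 _ h1
    rwa [mul_assoc, inv_mul_cancel_left] at this
  · intro a b
    rcases hP.tot (b * a⁻¹) (Subgroup.mem_top _) with h | h | h
    · exact Or.inl h
    · rw [Subgroup.mem_bot, mul_inv_eq_one] at h
      exact Or.inr (Or.inl h.symm)
    · rw [mul_inv_rev, inv_inv] at h
      exact Or.inr (Or.inr h)
  · intro a b c h
    change b * c * (a * c)⁻¹ ∈ P
    have e : b * c * (a * c)⁻¹ = b * a⁻¹ := by group
    rw [e]
    exact h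

theorem AllConrad_propC (h : AllConrad K) : PropC K := by
  intro P hP f g hf hg
  obtain ⟨m, hm, h1⟩ := h _ (rightOrder_of_rc hP) f g (by
    change f * 1⁻¹ ∈ P
    rwa [inv_one, mul_one]) hg
  exact ⟨m, hm, h1⟩

theorem IsOrderable_propO (h : IsOrderable K) : PropO K := by
  obtain ⟨r, hr, hl⟩ := h
  refine ⟨{a | r 1 a}, rc_of_rightOrder hr, ?_⟩
  intro g p hp
  have h1 := hl 1 p g hp
  have h2 := hr.2.2.2 _ _ g⁻¹ h1
  rw [mul_one, mul_inv_cancel] at h2
  exact h2

end Conversion

/-- the subgroup generated by a pair is soluble: translation to the ambient derived series -/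
theorem der_of_solvable {G : Type u} [Group G] (H : Subgroup G) (h : Group.IsSolvable H) :
    ∃ d, der H d = ⊥ := by
  obtain ⟨n, hn⟩ := h.solvable
  refine ⟨n, ?_⟩
  have h1 : ∀ k, der (⊤ : Subgroup H) k = derivedSeries H k := by
    intro k
    induction k with
    | zero => rfl
    | succ k ih =>
      change ⁅der (⊤ : Subgroup H) k, der (⊤ : Subgroup H) k⁆ = _
      rw [ih]
      rfl
  have h2 := der_map H.subtype (⊤ : Subgroup H) n
  rw [map_subtype_top', h1, hn, Subgroup.map_bot] at h2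
  exact h2

/-- the words in the semigroup law of nilpotent groups -/
def mal {N : Type u} [Group N] : ℕ → N → N → N × N
  | 0, a, b => (a, b)
  | i + 1, a, b => mal i (a * b) (b * a)

theorem mal_eq {N : Type u} [Group N] : ∀ (k : ℕ) (a b : N),
    a * b⁻¹ ∈ Subgroup.upperCentralSeries N k → (mal k a b).1 = (mal k a b).2
  | 0, a, b, h => by
    rw [Subgroup.upperCentralSeries_zero, Subgroup.mem_bot, mul_inv_eq_one] at h
    exact h
  | k + 1, a, b, h => by
    refine mal_eq k (a * b) (b * a) ?_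
    have h1 := Subgroup.mem_upperCentralSeries_succ_iff.1 h b
    rw [commutatorElement_def] at h1
    have e : a * b⁻¹ * b * (a * b⁻¹)⁻¹ * b⁻¹ = a * b * (b * a)⁻¹ := by group
    rwa [e] at h1

theorem mal_coe {K : Type u} [Group K] {L : Subgroup K} : ∀ (k : ℕ) (a b : L),
    mal k (a : K) (b : K) = (((mal k a b).1 : K), ((mal k a b).2 : K))
  | 0, _, _ => rfl
  | k + 1, a, b => mal_coe k (a * b) (b * a)

/-- ping-pong -/
theorem mal_pingpong {K : Type u} [Group K] {J α β : Set K} (hα : α ⊆ J) (hβ : β ⊆ J)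
    (hdis : ∀ x ∈ α, x ∉ β) (hJ : J.Nonempty) : ∀ (k : ℕ) (a b : K),
    ((∀ h ∈ J, h * a ∈ α ∧ h * b ∈ β) ∨ (∀ h ∈ J, h * a ∈ β ∧ h * b ∈ α)) →
    (mal k a b).1 ≠ (mal k a b).2
  | 0, a, b, h => by
    intro heq
    have heq' : a = b := heq
    obtain ⟨j, hj⟩ := hJ
    rw [heq'] at h
    rcases h with h | h
    · exact hdis _ (h j hj).1 (h j hj).2
    · exact hdis _ (h j hj).2 (h j hj).1
  | k + 1, a, b, h => by
    refine mal_pingpong hα hβ hdis hJ k (a * b) (b * a) ?_
    rcases h with h | h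
    · refine Or.inr fun j hj => ⟨?_, ?_⟩
      · rw [← mul_assoc]
        exact (h _ (hα (h j hj).1)).2
      · rw [← mul_assoc]
        exact (h _ (hβ (h j hj).2)).1
    · refine Or.inl fun j hj => ⟨?_, ?_⟩
      · rw [← mul_assoc]
        exact (h _ (hβ (h j hj).1)).2
      · rw [← mul_assoc]
        exact (h _ (hα (h j hj).2)).1

theorem exists_linearOrder {K : Type u} [Group K] {r : K → K → Prop} (hr : IsRightOrder r) :
    ∃ _ : LinearOrder K, (∀ a b : K, a < b ↔ r a b) ∧ ∀ a b c : K, a < b → a * c < b * c := by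
  classical
  let lo : LinearOrder K :=
    { le := fun a b => a = b ∨ r a b
      le_refl := fun a => Or.inl rfl
      le_trans := by
        rintro a b c (h1 | h1) (h2 | h2)
        · exact Or.inl (h1.trans h2)
        · subst h1
          exact Or.inr h2
        · subst h2
          exact Or.inr h1
        · exact Or.inr (hr.2.1 a b c h1 h2)
      le_antisymm := by
        rintro a b (h1 | h1) (h2 | h2)
        · exact h1
        · exact h1
        · exact h2.symm
        · exact absurd (hr.2.1 a b a h1 h2) (hr.1 a)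
      le_total := by
        intro a b
        rcases hr.2.2.1 a b with h | h | h
        · exact Or.inl (Or.inr h)
        · exact Or.inl (Or.inl h)
        · exact Or.inr (Or.inr h)
      toDecidableLE := Classical.decRel _ }
  have hlt : ∀ a b : K, a < b ↔ r a b := by
    intro a b
    rw [lt_iff_le_not_ge]
    constructor
    · rintro ⟨h1 | h1, h2⟩
      · exact absurd (Or.inl h1.symm) h2
      · exact h1
    · intro h
      refine ⟨Or.inr h, ?_⟩
      rintro (h2 | h2)
      · rw [h2] at h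
        exact hr.1 a h
      · exact hr.1 a (hr.2.1 a b a h h2)
  refine ⟨lo, hlt, ?_⟩
  intro a b c h
  rw [hlt] at h ⊢
  exact hr.2.2.2 a b c h

/-- a right order restricted to a nilpotent subgroup is Conrad -/
theorem conrad_of_nilpotent {K : Type u} [Group K] {r : K → K → Prop} (hr : IsRightOrder r)
    (f g : K) (hnil : Group.IsNilpotent (Subgroup.closure {f, g})) (hf : r 1 f) (hg : r f g) :
    ∃ m : ℕ, 0 < m ∧ r g (f * g ^ m * f⁻¹) := by
  obtain ⟨lo, hlt, hmul⟩ := exists_linearOrder hr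
  have hmul' : ∀ a b c : K, a ≤ b → a * c ≤ b * c := by
    intro a b c h
    rcases h.eq_or_lt with h | h
    · rw [h]
    · exact (hmul a b c h).le
  rw [← hlt] at hf hg
  by_contra hcon
  have hle : ∀ m : ℕ, 0 < m → f * g ^ m * f⁻¹ ≤ g := by
    intro m hm
    by_contra h
    push Not at h
    exact hcon ⟨m, hm, (hlt _ _).1 h⟩
  have hg1 : 1 < g := hf.trans hg
  have hgg : g < g * g := by
    have := hmul 1 g g hg1
    rwa [one_mul] at this
  have hgf : ∀ m : ℕ, g ^ m < f * g ^ m := by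
    intro m
    have := hmul 1 f (g ^ m) hf
    rwa [one_mul] at this
  have hggg : g * g < g * g * g := hmul _ _ g hgg
  let J : Set K := {h | f ≤ h ∧ ∃ m : ℕ, 0 < m ∧ h < f * g ^ m}
  let α : Set K := {h | g ≤ h ∧ h < g * g}
  let β : Set K := {h | g * g ≤ h ∧ h < g * g * g}
  have hα : α ⊆ J := by
    rintro h ⟨h1, h2⟩
    refine ⟨hg.le.trans h1, 2, by norm_num, h2.trans ?_⟩
    have := hgf 2
    rwa [pow_two] at this ⊢
  have hβ : β ⊆ J := by
    rintro h ⟨h1, h2⟩
    refine ⟨(hg.trans hgg).le.trans h1, 3, by norm_num, h2.trans ?_⟩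
    have := hgf 3
    rwa [pow_succ, pow_two] at this ⊢
  have hdis : ∀ x ∈ α, x ∉ β := fun x hx hx' => absurd (lt_of_lt_of_le hx.2 hx'.1) (lt_irrefl x)
  have hJ : J.Nonempty := ⟨f, le_rfl, 1, one_pos, by
    have := hgf 1
    rw [pow_one] at this ⊢
    exact hg.trans this⟩
  have hkey : ∀ h ∈ J, h * (f⁻¹ * g) ∈ α ∧ h * (f⁻¹ * (g * g)) ∈ β := by
    rintro h ⟨h1, m, hm, h2⟩
    refine ⟨⟨?_, ?_⟩, ⟨?_, ?_⟩⟩
    · have := hmul' _ _ (f⁻¹ * g) h1
      rwa [mul_inv_cancel_left] at this
    · have h3 := hmul _ _ (f⁻¹ * g) h2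
      have h4 := hmul' _ _ g (hle m hm)
      have e : f * g ^ m * (f⁻¹ * g) = f * g ^ m * f⁻¹ * g := by group
      rw [e] at h3
      exact lt_of_lt_of_le h3 h4
    · have := hmul' _ _ (f⁻¹ * (g * g)) h1
      rwa [mul_inv_cancel_left] at this
    · have h3 := hmul _ _ (f⁻¹ * (g * g)) h2
      have h4 := hmul' _ _ (g * g) (hle m hm)
      have e : f * g ^ m * (f⁻¹ * (g * g)) = f * g ^ m * f⁻¹ * (g * g) := by group
      rw [e] at h3
      rw [← mul_assoc g g g] at h4
      exact lt_of_lt_of_le h3 h4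
  -- the nilpotent group
  have hfL : f ∈ Subgroup.closure {f, g} := Subgroup.subset_closure (by simp)
  have hgL : g ∈ Subgroup.closure {f, g} := Subgroup.subset_closure (by simp)
  set L := Subgroup.closure {f, g} with hL
  obtain ⟨c, hc⟩ := hnil.nilpotent
  have h1 := mal_eq c (⟨f⁻¹ * g, L.mul_mem (L.inv_mem hfL) hgL⟩ : L)
    ⟨f⁻¹ * (g * g), L.mul_mem (L.inv_mem hfL) (L.mul_mem hgL hgL)⟩
    (by rw [hc]; exact Subgroup.mem_top _)
  refine mal_pingpong hα hβ hdis hJ c (f⁻¹ * g) (f⁻¹ * (g * g)) (Or.inl hkey) ?_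
  have h2 := mal_coe c (⟨f⁻¹ * g, L.mul_mem (L.inv_mem hfL) hgL⟩ : L)
    ⟨f⁻¹ * (g * g), L.mul_mem (L.inv_mem hfL) (L.mul_mem hgL hgL)⟩
  rw [h2]
  exact congrArg Subtype.val h1

end ConradExt
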