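import Pool.Agent.Lib.MP_7217b8_al.Center

/-!
Torsion-free nilpotent groups and isolators of abelian subgroups.
-/

namespace ConradExt


/-- torsion-free -/
def TF (G : Type*) [Group G] : Prop := ∀ x : G, ∀ n : ℕ, 0 < n → x ^ n = 1 → x = 1

theorem conj_pow_central {Q : Type*} [Group Q] {c x y : Q} (hc : ∀ z, c * z = z * c)
    (h : x * y * x⁻¹ = c * y) (n : ℕ) : x ^ n * y * (x ^ n)⁻¹ = c ^ n * y := by
  induction n with
  | zero => simp
  | succ n ih =>
    have e1 : x ^ (n + 1) * y * (x ^ (n + 1))⁻¹ = x * (x ^ n * y * (x ^ n)⁻¹) * x⁻¹ := by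
      rw [pow_succ']
      group
    have hcn : x * c ^ n = c ^ n * x := ((Commute.pow_left (show Commute c x from hc x) n).eq).symm
    rw [e1, ih, ← mul_assoc x, hcn, mul_assoc (c ^ n), mul_assoc (c ^ n), h, pow_succ, mul_assoc]

variable {G : Type*} [Group G]

theorem ucs_step (h : TF G) (j : ℕ) : ∀ x ∈ Subgroup.upperCentralSeries G (j + 1), ∀ n : ℕ, 0 < n →
    x ^ n ∈ Subgroup.upperCentralSeries G j → x ∈ Subgroup.upperCentralSeries G j := by
  induction j with
  | zero =>
    intro x _ n hn hx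
    rw [Subgroup.upperCentralSeries_zero, Subgroup.mem_bot] at hx ⊢
    exact h x n hn hx
  | succ j ih =>
    intro x hx n hn hxn
    rw [Subgroup.mem_upperCentralSeries_succ_iff]
    intro y
    rw [commutatorElement_def]
    have hc : x * y * x⁻¹ * y⁻¹ ∈ Subgroup.upperCentralSeries G (j + 1) :=
      (Subgroup.mem_upperCentralSeries_succ_iff.1 hx) y
    refine ih _ hc n hn ?_
    -- pass to the quotient
    let c' : G ⧸ Subgroup.upperCentralSeries G j := QuotientGroup.mk (x * y * x⁻¹ * y⁻¹)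
    have hc' : ∀ z : G ⧸ Subgroup.upperCentralSeries G j, c' * z = z * c' := by
      intro z
      obtain ⟨z, rfl⟩ := QuotientGroup.mk_surjective z
      have h1 := (Subgroup.mem_upperCentralSeries_succ_iff.1 hc) z
      rw [commutatorElement_def] at h1
      rw [← QuotientGroup.eq_one_iff, QuotientGroup.mk_mul, QuotientGroup.mk_mul,
        QuotientGroup.mk_mul, QuotientGroup.mk_inv, QuotientGroup.mk_inv, mul_inv_eq_one,
        mul_inv_eq_iff_eq_mul] at h1
      exact h1
    have h2 : (QuotientGroup.mk x : G ⧸ Subgroup.upperCentralSeries G j) * QuotientGroup.mk y *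
        (QuotientGroup.mk x)⁻¹ = c' * QuotientGroup.mk y := by
      change _ = QuotientGroup.mk (x * y * x⁻¹ * y⁻¹) * QuotientGroup.mk y
      rw [← QuotientGroup.mk_inv, ← QuotientGroup.mk_mul, ← QuotientGroup.mk_mul,
        ← QuotientGroup.mk_mul, inv_mul_cancel_right]
    have h3 := conj_pow_central hc' h2 n
    have h4 := (Subgroup.mem_upperCentralSeries_succ_iff.1 hxn) y
    rw [commutatorElement_def] at h4
    rw [← QuotientGroup.eq_one_iff, QuotientGroup.mk_mul, QuotientGroup.mk_mul,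
      QuotientGroup.mk_mul, QuotientGroup.mk_inv, QuotientGroup.mk_inv,
      QuotientGroup.mk_pow, h3, mul_inv_cancel_right] at h4
    rw [← QuotientGroup.eq_one_iff, QuotientGroup.mk_pow]
    exact h4

theorem ucs_isolated (h : TF G) [Group.IsNilpotent G] (i : ℕ) {x : G} {n : ℕ} (hn : 0 < n)
    (hx : x ^ n ∈ Subgroup.upperCentralSeries G i) : x ∈ Subgroup.upperCentralSeries G i := by
  have key : ∀ k, x ∈ Subgroup.upperCentralSeries G (i + k) → x ∈ Subgroup.upperCentralSeries G i := by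
    intro k
    induction k with
    | zero => exact fun h => h
    | succ k ih =>
      intro hk
      exact ih (ucs_step h (i + k) x hk n hn
        (Subgroup.upperCentralSeries_mono G (Nat.le_add_right i k) hx))
  obtain ⟨c, hc⟩ := Group.IsNilpotent.nilpotent G
  refine key c ?_
  have : Subgroup.upperCentralSeries G c ≤ Subgroup.upperCentralSeries G (i + c) :=
    Subgroup.upperCentralSeries_mono G (Nat.le_add_left c i)
  rw [hc] at this
  exact this (Subgroup.mem_top x)

theorem TF.quotient_center (h : TF G) [Group.IsNilpotent G] : TF (G ⧸ Subgroup.center G) := by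
  intro x n hn hx
  obtain ⟨x, rfl⟩ := QuotientGroup.mk_surjective x
  rw [← QuotientGroup.mk_pow, QuotientGroup.eq_one_iff] at hx
  rw [QuotientGroup.eq_one_iff]
  have h1 := Subgroup.upperCentralSeries_one G
  rw [← h1] at hx ⊢
  exact ucs_isolated h 1 hn hx

theorem propO_of_oConvex_center (h : OConvex (Subgroup.center G)) (htf : TF G) : PropO G := by
  obtain ⟨P, hP, hc⟩ := h
  obtain ⟨Q, hQ⟩ := exists_rc_of_abelian (N := ⊥) (M := Subgroup.center G) bot_le (by
    intro a ha b _
    rw [Subgroup.mem_bot, mul_inv_eq_one, mul_inv_eq_iff_eq_mul]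
    exact (Subgroup.mem_center_iff.1 ha b).symm) (by
    intro a _ n hn h
    rw [Subgroup.mem_bot] at h ⊢
    exact htf a n hn h)
  refine ⟨P ∪ Q, hP.glue hQ, ?_⟩
  rintro g p (hp | hp)
  · exact Or.inl (hc g p hp)
  · refine Or.inr ?_
    have := Subgroup.mem_center_iff.1 (hQ.sub p hp) g
    rw [this, mul_inv_cancel_right]
    exact hp

/-- torsion-free nilpotent groups are bi-orderable -/
theorem propO_of_tf_nilpotent (G : Type*) [Group G] [hG : Group.IsNilpotent G] : TF G → PropO G :=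
  Group.nilpotent_center_quotient_ind (P := fun G _ _ => TF G → PropO G) G
    (by
      intro G _ _ _
      refine ⟨∅, ⟨by simp, le_top, by simp, by simp, by simp, by simp, ?_⟩, ?_⟩
      · intro a _
        exact Or.inr (Or.inl (by rw [Subgroup.mem_bot]; exact Subsingleton.elim a 1))
      · intro g p hp
        simp at hp)
    (by
      intro G _ _ ih h
      exact propO_of_oConvex_center (PropO.oConvex (ih h.quotient_center)) h)

theorem commute_of_pow (hO : PropO G) {x y : G} {n m : ℕ} (hn : 0 < n) (hm : 0 < m)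
    (h : x ^ n * y ^ m = y ^ m * x ^ n) : x * y = y * x := by
  have h1 : (y ^ m * x * (y ^ m)⁻¹) ^ n = x ^ n := by
    rw [conj_pow, ← h, mul_inv_cancel_right]
  have h2 := root_unique hO hn h1
  have h3 : (x * y * x⁻¹) ^ m = y ^ m := by
    rw [conj_pow]
    rw [mul_inv_eq_iff_eq_mul] at h2
    rw [← h2, mul_inv_cancel_right]
  have h4 := root_unique hO hm h3
  rwa [mul_inv_eq_iff_eq_mul] at h4

/-- the isolator of an abelian subgroup in a bi-orderable group -/
def isol (hO : PropO G) (B : Subgroup G) (hB : ∀ a ∈ B, ∀ b ∈ B, a * b = b * a) : Subgroup G where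
  carrier := {q | ∃ n : ℕ, 0 < n ∧ q ^ n ∈ B}
  one_mem' := ⟨1, one_pos, by rw [one_pow]; exact B.one_mem⟩
  inv_mem' := by
    rintro a ⟨n, hn, h⟩
    exact ⟨n, hn, by rw [inv_pow]; exact B.inv_mem h⟩
  mul_mem' := by
    rintro a b ⟨n, hn, ha⟩ ⟨m, hm, hb⟩
    refine ⟨n * m, Nat.mul_pos hn hm, ?_⟩
    have hc : Commute a b := commute_of_pow hO hn hm (hB _ ha _ hb)
    rw [hc.mul_pow]
    refine B.mul_mem ?_ ?_
    · rw [pow_mul]
      exact B.pow_mem ha m
    · rw [mul_comm, pow_mul]
      exact B.pow_mem hb n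

theorem mem_isol (hO : PropO G) {B : Subgroup G} (hB : ∀ a ∈ B, ∀ b ∈ B, a * b = b * a) {q : G} :
    q ∈ isol hO B hB ↔ ∃ n : ℕ, 0 < n ∧ q ^ n ∈ B := Iff.rfl

theorem isol_nilpotent [Group.IsNilpotent G] (hO : PropO G) {X : Set G} (hX : Minl X)
    (B : Subgroup G) (hB : ∀ a ∈ B, ∀ b ∈ B, a * b = b * a)
    (hXB : ∀ x ∈ X, ∀ b ∈ B, x⁻¹ * b * x ∈ B) :
    B ≤ isol hO B hB ∧ OConvex (isol hO B hB) ∧
      ∀ a ∈ isol hO B hB, ∀ b ∈ isol hO B hB, a * b = b * a := by
  have htf : TF G := fun x n hn h => hO.torsionFree hn h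
  set N := isol hO B hB with hN
  have hNiso : ∀ e : G, ∀ n : ℕ, 0 < n → e ^ n ∈ N → e ∈ N := by
    rintro e n hn ⟨m, hm, h⟩
    exact ⟨n * m, Nat.mul_pos hn hm, by rw [pow_mul]; exact h⟩
  have hXN : ∀ x ∈ X, ∀ e ∈ N, x⁻¹ * e * x ∈ N := by
    rintro x hx e ⟨n, hn, h⟩
    refine ⟨n, hn, ?_⟩
    have := conj_pow (i := n) (a := x⁻¹) (b := e)
    rw [inv_inv] at this
    rw [this]
    exact hXB x hx _ h
  have hab : ∀ a ∈ N, ∀ b ∈ N, a * b = b * a := by
    rintro a ⟨n, hn, ha⟩ b ⟨m, hm, hb⟩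
    exact commute_of_pow hO hn hm (hB _ ha _ hb)
  -- a normal isolated subgroup is OConvex
  have hOC : ∀ M : Subgroup G, M.Normal → (∀ e : G, ∀ n : ℕ, 0 < n → e ^ n ∈ M → e ∈ M) →
      OConvex M := by
    intro M hM hiso
    apply PropO.oConvex
    apply propO_of_tf_nilpotent
    intro x n hn hx
    obtain ⟨x, rfl⟩ := QuotientGroup.mk_surjective x
    rw [← QuotientGroup.mk_pow, QuotientGroup.eq_one_iff] at hx
    rw [QuotientGroup.eq_one_iff]
    exact hiso x n hn hx
  have key : ∀ i : ℕ, ∀ e ∈ N, e ∈ Subgroup.upperCentralSeries G i → ∀ q : G, q * e * q⁻¹ ∈ N := by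
    intro i
    induction i with
    | zero =>
      intro e _ he q
      rw [Subgroup.upperCentralSeries_zero, Subgroup.mem_bot] at he
      rw [he]
      simpa using N.one_mem
    | succ i ih =>
      intro e heN he q
      have hnorm : (N ⊓ Subgroup.upperCentralSeries G i).Normal := by
        refine ⟨fun a ha g => ⟨ih a ha.1 ha.2 g, ?_⟩⟩
        exact (inferInstance : (Subgroup.upperCentralSeries G i).Normal).conj_mem a ha.2 g
      have h1 := hOC _ hnorm (fun a n hn ha => ⟨hNiso a n hn ha.1, ucs_isolated htf i hn ha.2⟩)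
      obtain ⟨S, hS, hSr⟩ := relConvex_relCentralizer h1 e
      have hST : S = ⊤ := by
        apply hX S hSr
        intro x hx
        rw [SetLike.mem_coe, hS]
        refine ⟨N.mul_mem (N.inv_mem heN) (hXN x hx e heN), ?_⟩
        have h2 := (Subgroup.mem_upperCentralSeries_succ_iff.1
          ((Subgroup.upperCentralSeries G (i + 1)).inv_mem he)) x⁻¹
        have e2 : e⁻¹ * (x⁻¹ * e * x) = e⁻¹ * x⁻¹ * e⁻¹⁻¹ * x⁻¹⁻¹ := by group
        rw [e2]
        exact h2
      have h3 : q⁻¹ ∈ S := by rw [hST]; exact Subgroup.mem_top _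
      rw [hS] at h3
      have h4 := N.mul_mem heN h3.1
      rwa [mul_inv_cancel_left, inv_inv] at h4
  have hnorm : N.Normal := by
    obtain ⟨c, hc⟩ := Group.IsNilpotent.nilpotent G
    refine ⟨fun e he q => key c e he ?_ q⟩
    rw [hc]
    exact Subgroup.mem_top e
  exact ⟨fun b hb => ⟨1, one_pos, by rwa [pow_one]⟩, hOC N hnorm hNiso, hab⟩

end ConradExt
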