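import Pool.Agent.Lib.MP_7217b8_al.Algebraic

/-!
Elements of abelian normal subgroups are locally unipotent.
-/

namespace ConradExt

open Polynomial

variable {Y : Type*} [Group Y]
variable {A : Subgroup Y} {hA : ∀ a ∈ A, ∀ b ∈ A, a * b = b * a}

/-- the rank one subgroup of `T` around `x` -/
theorem exists_rankOne {T : Type*} [Group T] (hO : PropO T) (x : T) :
    ∃ E : Subgroup T, RelConvex E ∧ x ∈ E ∧ (∀ a ∈ E, ∀ b ∈ E, a * b = b * a) ∧
      ∀ e ∈ E, ∃ n : ℕ, 0 < n ∧ ∃ k : ℤ, e ^ n = x ^ k := by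
  set R : Subgroup T := Subgroup.centralizer (Subgroup.centralizer {x} : Set T) with hR
  have hxC : x ∈ Subgroup.centralizer {x} := by
    rw [Subgroup.mem_centralizer_singleton_iff]
  have hRC : R ≤ Subgroup.centralizer {x} := by
    intro r hr
    rw [Subgroup.mem_centralizer_singleton_iff]
    rw [hR, Subgroup.mem_centralizer_iff] at hr
    exact (hr x hxC).symm
  have hRab : ∀ a ∈ R, ∀ b ∈ R, a * b = b * a := by
    intro a ha b hb
    rw [hR, Subgroup.mem_centralizer_iff] at ha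
    exact (ha b (hRC hb)).symm
  have hxR : x ∈ R := by
    rw [hR, Subgroup.mem_centralizer_iff]
    intro h hh
    rw [SetLike.mem_coe, Subgroup.mem_centralizer_singleton_iff] at hh
    exact hh
  have hRrc : RelConvex R := relConvex_centralizer hO _
  let E : Subgroup T :=
    { carrier := {e | e ∈ R ∧ ∃ n : ℕ, 0 < n ∧ ∃ k : ℤ, e ^ n = x ^ k}
      one_mem' := ⟨R.one_mem, 1, one_pos, 0, by simp⟩
      inv_mem' := by
        rintro a ⟨ha, n, hn, k, h⟩
        exact ⟨R.inv_mem ha, n, hn, -k, by rw [inv_pow, h, zpow_neg]⟩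
      mul_mem' := by
        rintro a b ⟨ha, n, hn, k, h⟩ ⟨hb, n', hn', k', h'⟩
        refine ⟨R.mul_mem ha hb, n * n', Nat.mul_pos hn hn', k * n' + k' * n, ?_⟩
        have hc : Commute a b := hRab a ha b hb
        rw [hc.mul_pow, pow_mul, h, mul_comm n n', pow_mul, h', zpow_add, zpow_mul, zpow_mul,
          zpow_natCast, zpow_natCast] }
  have hE : ∀ e, e ∈ E ↔ e ∈ R ∧ ∃ n : ℕ, 0 < n ∧ ∃ k : ℤ, e ^ n = x ^ k := fun _ => Iff.rfl
  have hER : E ≤ R := fun e he => ((hE e).1 he).1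
  refine ⟨E, ?_, ⟨hxR, 1, one_pos, 1, by simp⟩, fun a ha b hb => hRab a (hER ha) b (hER hb),
    fun e he => ((hE e).1 he).2⟩
  refine hRrc.trans (exists_rc_of_abelian hER ?_ ?_)
  · intro a ha b hb
    rw [hRab a ha b hb]
    have : b * a * a⁻¹ * b⁻¹ = 1 := by group
    rw [this]
    exact E.one_mem
  · rintro a ha n hn ⟨_, n', hn', k, h⟩
    exact ⟨ha, n * n', Nat.mul_pos hn hn', k, by rw [pow_mul]; exact h⟩

/-- the semigroup of operators generated by `E` -/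
def opS (A : Subgroup Y) (hA : ∀ a ∈ A, ∀ b ∈ A, a * b = b * a) [A.Normal] (E : Set Y) :
    AddSubsemigroup (AddMonoid.End (AbG A hA)) :=
  AddSubsemigroup.closure (conjRep A hA '' E)

theorem opS_mul [A.Normal] {E : Subgroup Y} {s t : AddMonoid.End (AbG A hA)}
    (hs : s ∈ opS A hA E) (ht : t ∈ opS A hA E) : s * t ∈ opS A hA E := by
  unfold opS at hs ht ⊢
  induction hs using AddSubsemigroup.closure_induction with
  | mem s hs =>
    obtain ⟨e, he, rfl⟩ := hs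
    induction ht using AddSubsemigroup.closure_induction with
    | mem t ht =>
      obtain ⟨f, hf, rfl⟩ := ht
      rw [← map_mul]
      exact AddSubsemigroup.subset_closure ⟨e * f, E.mul_mem he hf, rfl⟩
    | add t t' _ _ ih ih' =>
      rw [mul_add]
      exact AddSubsemigroup.add_mem _ ih ih'
  | add s s' _ _ ih ih' =>
    rw [add_mul]
    exact AddSubsemigroup.add_mem _ ih ih'

theorem opS_comm [A.Normal] {E : Subgroup Y}
    (hE : ∀ a ∈ E, ∀ b ∈ E, conjRep A hA a * conjRep A hA b = conjRep A hA b * conjRep A hA a)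
    {s t : AddMonoid.End (AbG A hA)} (hs : s ∈ opS A hA E) (ht : t ∈ opS A hA E) :
    s * t = t * s := by
  unfold opS at hs ht
  induction hs using AddSubsemigroup.closure_induction with
  | mem s hs =>
    obtain ⟨e, he, rfl⟩ := hs
    induction ht using AddSubsemigroup.closure_induction with
    | mem t ht =>
      obtain ⟨f, hf, rfl⟩ := ht
      exact hE e he f hf
    | add t t' _ _ ih ih' => rw [mul_add, add_mul, ih, ih']
  | add s s' _ _ ih ih' => rw [mul_add, add_mul, ih, ih']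

theorem mem_opS [A.Normal] {E : Subgroup Y} {e : Y} (he : e ∈ E) :
    conjRep A hA e ∈ opS A hA E := AddSubsemigroup.subset_closure ⟨e, he, rfl⟩

/-- every operator is a polynomial with positive values in some root of `y₀` -/
theorem express [A.Normal] {E : Subgroup Y}
    (hab : ∀ a ∈ E, ∀ b ∈ E, (QuotientGroup.mk a : Y ⧸ A) * QuotientGroup.mk b =
      QuotientGroup.mk b * QuotientGroup.mk a)
    (htf : TF (Y ⧸ A)) {x : Y}
    (hx : ∀ e ∈ E, ∃ n : ℕ, 0 < n ∧ ∃ k : ℤ,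
      (QuotientGroup.mk e : Y ⧸ A) ^ n = (QuotientGroup.mk x) ^ k)
    {s : AddMonoid.End (AbG A hA)} (hs : s ∈ opS A hA E) :
    ∀ y₀ ∈ E, (QuotientGroup.mk y₀ : Y ⧸ A) ≠ 1 →
      ∃ y ∈ E, (QuotientGroup.mk y : Y ⧸ A) ≠ 1 ∧ ∃ j : ℕ, 0 < j ∧
        conjRep A hA y ^ j = conjRep A hA y₀ ∧
        ∃ (K : ℕ) (p : ℤ[X]), (∀ c : ℤ, 1 ≤ c → 0 < p.eval c) ∧
          s * conjRep A hA y ^ K = aeval (conjRep A hA y) p := by
  unfold opS at hs
  induction hs using AddSubsemigroup.closure_induction with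
  | mem s hs =>
    obtain ⟨e, he, rfl⟩ := hs
    intro y₀ hy₀ hy₀1
    obtain ⟨n, hn, k, hk⟩ := hx e he
    obtain ⟨n', hn', k', hk'⟩ := hx y₀ hy₀
    obtain ⟨z, j, l, u, v, hj, hzj, hzl, hz⟩ :=
      cyclic_reduction htf hn hn' hk hk' (hab e he y₀ hy₀) hy₀1
    -- a representative of `z`
    set y : Y := e ^ v * y₀ ^ u with hy
    have hyE : y ∈ E := E.mul_mem (E.zpow_mem he v) (E.zpow_mem hy₀ u)
    have hyz : (QuotientGroup.mk y : Y ⧸ A) = z := by
      rw [hz, hy, QuotientGroup.mk_mul, QuotientGroup.mk_zpow, QuotientGroup.mk_zpow]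
    refine ⟨y, hyE, ?_, j, hj, ?_, l.natAbs, X ^ (l + l.natAbs).toNat, ?_, ?_⟩
    · rw [hyz]
      intro h
      rw [h, one_pow] at hzj
      exact hy₀1 hzj.symm
    · rw [← map_pow]
      apply conjRep_eq
      rw [QuotientGroup.mk_pow, hyz, hzj]
    · intro c hc
      rw [eval_pow, eval_X]
      positivity
    · rw [map_pow, aeval_X, ← map_pow, ← map_pow, ← map_mul]
      apply conjRep_eq
      rw [QuotientGroup.mk_mul, QuotientGroup.mk_pow, QuotientGroup.mk_pow, hyz, ← hzl,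
        ← zpow_natCast, ← zpow_add, ← zpow_natCast]
      congr 1
      have : 0 ≤ l + (l.natAbs : ℤ) := by omega
      rw [Int.toNat_of_nonneg this]
  | add s s' _ _ ih ih' =>
    intro y₀ hy₀ hy₀1
    obtain ⟨y₁, hy₁, hy₁1, j₁, hj₁, hyj₁, K₁, p₁, hp₁, he₁⟩ := ih y₀ hy₀ hy₀1
    obtain ⟨y₂, hy₂, hy₂1, j₂, hj₂, hyj₂, K₂, p₂, hp₂, he₂⟩ := ih' y₁ hy₁ hy₁1
    refine ⟨y₂, hy₂, hy₂1, j₂ * j₁, Nat.mul_pos hj₂ hj₁, ?_, j₂ * K₁ + K₂,
      expand ℤ j₂ p₁ * X ^ K₂ + p₂ * X ^ (j₂ * K₁), ?_, ?_⟩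
    · rw [pow_mul, hyj₂, hyj₁]
    · intro c hc
      rw [eval_add, eval_mul, eval_mul, eval_pow, eval_pow, eval_X, expand_eval]
      have hc0 : 0 < c := by omega
      have h1 := hp₁ (c ^ j₂) (one_le_pow₀ hc)
      have h2 := hp₂ c hc
      positivity
    · have h1 : s * conjRep A hA y₂ ^ (j₂ * K₁) = aeval (conjRep A hA y₂) (expand ℤ j₂ p₁) := by
        rw [expand_aeval, hyj₂, ← he₁, pow_mul, hyj₂]
      rw [map_add, map_mul, map_mul, map_pow, map_pow, aeval_X, add_mul, pow_add, ← mul_assoc,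
        h1, ← he₂]
      congr 1
      rw [mul_assoc, ← pow_add, ← pow_add, add_comm K₂]

/-- version allowing the zero operator -/
theorem express' [A.Normal] {E : Subgroup Y}
    (hab : ∀ a ∈ E, ∀ b ∈ E, (QuotientGroup.mk a : Y ⧸ A) * QuotientGroup.mk b =
      QuotientGroup.mk b * QuotientGroup.mk a)
    (htf : TF (Y ⧸ A)) {x : Y}
    (hx : ∀ e ∈ E, ∃ n : ℕ, 0 < n ∧ ∃ k : ℤ,
      (QuotientGroup.mk e : Y ⧸ A) ^ n = (QuotientGroup.mk x) ^ k)
    {s : AddMonoid.End (AbG A hA)} (hs : s ∈ opS A hA E ∨ s = 0) :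
    ∀ y₀ ∈ E, (QuotientGroup.mk y₀ : Y ⧸ A) ≠ 1 →
      ∃ y ∈ E, (QuotientGroup.mk y : Y ⧸ A) ≠ 1 ∧ ∃ j : ℕ, 0 < j ∧
        conjRep A hA y ^ j = conjRep A hA y₀ ∧
        ∃ (K : ℕ) (p : ℤ[X]), (∀ c : ℤ, 1 ≤ c → 0 ≤ p.eval c) ∧
          (s ∈ opS A hA E → p = 0 → False) ∧
          ((∀ c : ℤ, 1 ≤ c → 0 < p.eval c) ∨ p = 0) ∧
          s * conjRep A hA y ^ K = aeval (conjRep A hA y) p := by
  intro y₀ hy₀ hy₀1
  by_cases h : s ∈ opS A hA E
  · obtain ⟨y, hy, hy1, j, hj, hyj, K, p, hp, he⟩ := express hab htf hx h y₀ hy₀ hy₀1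
    refine ⟨y, hy, hy1, j, hj, hyj, K, p, fun c hc => (hp c hc).le, ?_, Or.inl hp, he⟩
    intro _ h0
    have := hp 1 le_rfl
    rw [h0, eval_zero] at this
    exact lt_irrefl _ this
  · have hs0 : s = 0 := hs.resolve_left h
    refine ⟨y₀, hy₀, hy₀1, 1, one_pos, by rw [pow_one], 0, 0, by simp, fun h' => absurd h' h,
      Or.inr rfl, ?_⟩
    rw [hs0, zero_mul, map_zero]

/-- Lemma 8: local unipotence. -/
theorem locally_unipotent [A.Normal] (hC : PropC Y) (hO : PropO Y) (hAO : OConvex A)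
    (x : Y) (m : AbG A hA) : ∃ k : ℕ, ((conjRep A hA x - 1) ^ k) m = 0 := by
  by_contra hcon
  push Not at hcon
  set ρ := conjRep A hA with hρ
  have hOT : PropO (Y ⧸ A) := hAO.propO
  have htf : TF (Y ⧸ A) := fun t n hn h => hOT.torsionFree hn h
  -- `x ∉ A`
  have hx1 : (QuotientGroup.mk x : Y ⧸ A) ≠ 1 := by
    intro h
    rw [QuotientGroup.eq_one_iff] at h
    apply hcon 1
    rw [hρ, conjRep_mem h, sub_self, pow_one]
    rfl
  obtain ⟨E', hE'rc, hxE', hE'ab, hE'x⟩ := exists_rankOne hOT (QuotientGroup.mk x)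
  set E : Subgroup Y := E'.comap (QuotientGroup.mk' A) with hE
  have hErc : RelConvex E := hE'rc.comap _
  have hmemE : ∀ e, e ∈ E ↔ (QuotientGroup.mk e : Y ⧸ A) ∈ E' := fun e => Iff.rfl
  have hxE : x ∈ E := hxE'
  have hAE : A ≤ E := by
    intro a ha
    rw [hmemE, (QuotientGroup.eq_one_iff a).2 ha]
    exact E'.one_mem
  have hab : ∀ a ∈ E, ∀ b ∈ E, (QuotientGroup.mk a : Y ⧸ A) * QuotientGroup.mk b =
      QuotientGroup.mk b * QuotientGroup.mk a := fun a ha b hb => hE'ab _ ha _ hb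
  have hEx : ∀ e ∈ E, ∃ n : ℕ, 0 < n ∧ ∃ k : ℤ,
      (QuotientGroup.mk e : Y ⧸ A) ^ n = (QuotientGroup.mk x) ^ k := fun e he => hE'x _ he
  have hScomm : ∀ s ∈ opS A hA E, ∀ t ∈ opS A hA E, s * t = t * s := fun s hs t ht =>
    opS_comm (fun a ha b hb => conjRep_commute (hab a ha b hb)) hs ht
  have h1S : (1 : AddMonoid.End (AbG A hA)) ∈ opS A hA E := by
    have := mem_opS (A := A) (hA := hA) E.one_mem
    rwa [map_one] at this
  -- the initial cone
  let Cn : Set (AbG A hA) := {c | ∃ s t : AddMonoid.End (AbG A hA),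
    (s ∈ opS A hA E ∨ s = 0) ∧ (t ∈ opS A hA E ∨ t = 0) ∧ (s ∈ opS A hA E ∨ t ∈ opS A hA E) ∧
    c = s m + t (ρ x m - (3 : ℤ) • m)}
  have hor : ∀ s t : AddMonoid.End (AbG A hA), (s ∈ opS A hA E ∨ s = 0) →
      (t ∈ opS A hA E ∨ t = 0) → (s + t ∈ opS A hA E ∨ s + t = 0) := by
    rintro s t (hs | hs) (ht | ht)
    · exact Or.inl (AddSubsemigroup.add_mem _ hs ht)
    · exact Or.inl (by rw [ht, add_zero]; exact hs)
    · exact Or.inl (by rw [hs, zero_add]; exact ht)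
    · exact Or.inr (by rw [hs, ht, add_zero])
  have hor' : ∀ s t : AddMonoid.End (AbG A hA), s ∈ opS A hA E →
      (t ∈ opS A hA E ∨ t = 0) → s + t ∈ opS A hA E := by
    rintro s t hs (ht | ht)
    · exact AddSubsemigroup.add_mem _ hs ht
    · rw [ht, add_zero]; exact hs
  have hC0 : (0 : AbG A hA) ∉ Cn := by
    rintro ⟨s, t, hs, ht, hst, h0⟩
    obtain ⟨y₁, hy₁, hy₁1, j₁, hj₁, hyj₁, K₁, p₁, hp₁, hp₁', hp₁'', he₁⟩ :=
      express' (hA := hA) hab htf hEx hs x hxE hx1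
    obtain ⟨y, hy, hy1, j₂, hj₂, hyj₂, K₂, p₂, hp₂, hp₂', hp₂'', he₂⟩ :=
      express' (hA := hA) hab htf hEx ht y₁ hy₁ hy₁1
    have hyx : ρ y ^ (j₂ * j₁) = ρ x := by rw [hρ, pow_mul, hyj₂, hyj₁]
    -- common denominators
    set K := j₂ * K₁ + K₂ with hK
    have hs' : s * ρ y ^ K = aeval (ρ y) (expand ℤ j₂ p₁ * X ^ K₂) := by
      have h1 : s * conjRep A hA y ^ (j₂ * K₁) = aeval (conjRep A hA y) (expand ℤ j₂ p₁) := by
        rw [expand_aeval, hyj₂, ← he₁, pow_mul, hyj₂]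
      rw [hK, pow_add, ← mul_assoc, hρ, h1, map_mul, map_pow, aeval_X]
    have ht' : t * ρ y ^ K = aeval (ρ y) (p₂ * X ^ (j₂ * K₁)) := by
      rw [hK, add_comm, pow_add, ← mul_assoc, hρ, he₂, map_mul, map_pow, aeval_X]
    set q : ℤ[X] := expand ℤ j₂ p₁ * X ^ K₂ + p₂ * X ^ (j₂ * K₁) * (X ^ (j₂ * j₁) - C 3) with hq
    have hq0 : q ≠ 0 := by
      intro hq0
      have h4 : q.eval 4 = 0 := by rw [hq0, eval_zero]
      rw [hq, eval_add, eval_mul, eval_mul, eval_mul, eval_sub, eval_pow, eval_pow, eval_pow,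
        eval_X, expand_eval, eval_C] at h4
      have h5 : (1 : ℤ) ≤ 4 ^ j₂ := one_le_pow₀ (by norm_num)
      have h6 : (4 : ℤ) ≤ 4 ^ (j₂ * j₁) := by
        calc (4 : ℤ) = 4 ^ 1 := by norm_num
          _ ≤ 4 ^ (j₂ * j₁) := pow_le_pow_right₀ (by norm_num) (Nat.mul_pos hj₂ hj₁)
      have h7 : (0 : ℤ) < 4 ^ (j₂ * j₁) - 3 := by omega
      have ha := hp₁ _ h5
      have hb := hp₂ 4 (by norm_num)
      have ha2 : 0 ≤ eval (4 ^ j₂) p₁ * 4 ^ K₂ := by positivity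
      have hb2 : 0 ≤ eval 4 p₂ * 4 ^ (j₂ * K₁) * (4 ^ (j₂ * j₁) - 3) :=
        mul_nonneg (by positivity) h7.le
      rcases hst with hst | hst
      · rcases hp₁'' with h | h
        · have h8 := h _ h5
          have : 0 < eval (4 ^ j₂) p₁ * 4 ^ K₂ := by positivity
          omega
        · exact hp₁' hst h
      · rcases hp₂'' with h | h
        · have h8 := h 4 (by norm_num)
          have : 0 < eval 4 p₂ * 4 ^ (j₂ * K₁) * (4 ^ (j₂ * j₁) - 3) :=
            mul_pos (by positivity) h7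
          omega
        · exact hp₂' hst h
    -- `q(y) m = 0`
    have hyS : ρ y ∈ opS A hA E := mem_opS hy
    have hxS : ρ x ∈ opS A hA E := mem_opS hxE
    have hqm : (aeval (ρ y) q) m = 0 := by
      have h3 : aeval (ρ y) q = s * ρ y ^ K + (t * ρ y ^ K) * (ρ x - 3) := by
        rw [hq, map_add, map_mul (aeval (ρ y)) (p₂ * X ^ (j₂ * K₁)), ← hs', ← ht', map_sub,
          map_pow, aeval_X, aeval_C, hyx, map_ofNat]
      have hc1 : Commute (ρ y) s := by
        rcases hs with hs | hs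
        · exact hScomm _ hyS _ hs
        · rw [hs]; exact Commute.zero_right _
      have hc2 : Commute (ρ y) t := by
        rcases ht with ht | ht
        · exact hScomm _ hyS _ ht
        · rw [ht]; exact Commute.zero_right _
      have h4 : aeval (ρ y) q = ρ y ^ K * (s + t * (ρ x - 3)) := by
        rw [h3, mul_add, ← (hc1.pow_left K).eq, ← mul_assoc, (hc2.pow_left K).eq]
      rw [h4]
      change (ρ y ^ K) (s m + t ((ρ x - 3) m)) = 0
      have h5 : (ρ x - 3 : AddMonoid.End (AbG A hA)) m = ρ x m - (3 : ℤ) • m := by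
        have h6 : (3 : AddMonoid.End (AbG A hA)) m = (3 : ℤ) • m := by
          have h7 : (3 : AddMonoid.End (AbG A hA)) = ((3 : ℕ) : AddMonoid.End (AbG A hA)) := rfl
          rw [h7, AddMonoid.End.natCast_apply, ← natCast_zsmul]
          rfl
        change ρ x m - (3 : AddMonoid.End (AbG A hA)) m = _
        rw [h6]
      rw [h5, ← h0, map_zero]
    obtain ⟨k, hk⟩ := unip_of_algebraic hC hO y m q hq0 hqm
    have h5 := pow_unip (ρ y) (j₂ * j₁) k m hk
    rw [hyx] at h5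
    exact hcon k h5
  obtain ⟨P, N₀, hCP, hP0, hPadd, hPS, hPtot, -, hPN⟩ := zorn_cone'
    (opS A hA E : Set (AddMonoid.End (AbG A hA))) h1S
    (fun s hs t ht => AddSubsemigroup.add_mem _ hs ht) (fun s hs t ht => opS_mul hs ht) hScomm Cn
    hC0 (by
      rintro _ ⟨s, t, hs, ht, hst, rfl⟩ _ ⟨s', t', hs', ht', hst', rfl⟩
      refine ⟨s + s', t + t', hor s s' hs hs', hor t t' ht ht', ?_, ?_⟩
      · rcases hst with h | h
        · exact Or.inl (hor' s s' h hs')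
        · exact Or.inr (hor' t t' h ht')
      · change _ = s m + s' m + (t _ + t' _)
        abel) (by
      rintro r hr _ ⟨s, t, hs, ht, hst, rfl⟩
      have hmul : ∀ s : AddMonoid.End (AbG A hA), (s ∈ opS A hA E ∨ s = 0) →
          (r * s ∈ opS A hA E ∨ r * s = 0) := by
        rintro s (hs | hs)
        · exact Or.inl (opS_mul hr hs)
        · exact Or.inr (by rw [hs, mul_zero])
      refine ⟨r * s, r * t, hmul s hs, hmul t ht, ?_, ?_⟩
      · rcases hst with h | h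
        · exact Or.inl (opS_mul hr h)
        · exact Or.inr (opS_mul hr h)
      · rw [map_add]
        rfl)
  -- transport to `Y`
  let N₀Y : Subgroup Y :=
    { carrier := {y | ∃ n ∈ N₀, AbG.val n = y}
      one_mem' := ⟨0, N₀.zero_mem, rfl⟩
      mul_mem' := by
        rintro _ _ ⟨a, ha, rfl⟩ ⟨b, hb, rfl⟩
        exact ⟨a + b, N₀.add_mem ha hb, rfl⟩
      inv_mem' := by
        rintro _ ⟨a, ha, rfl⟩
        exact ⟨-a, N₀.neg_mem ha, rfl⟩ }
  have hN₀Y : ∀ y, y ∈ N₀Y ↔ ∃ n ∈ N₀, AbG.val n = y := fun _ => Iff.rfl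
  have hRC : RC A N₀Y {y | ∃ n ∈ P, AbG.val n = y} := by
    refine ⟨?_, ?_, ?_, ?_, ?_, ?_, ?_⟩
    · rintro _ ⟨n, -, rfl⟩
      exact n.val_mem
    · rintro _ ⟨n, -, rfl⟩
      exact n.val_mem
    · rintro _ ⟨a, ha, rfl⟩ _ ⟨b, hb, rfl⟩
      exact ⟨a + b, hPadd a ha b hb, rfl⟩
    · rintro _ ⟨a, ha, rfl⟩ _ ⟨b, hb, rfl⟩
      exact ⟨a + b, hPN a ha b hb, rfl⟩
    · rintro _ ⟨a, ha, rfl⟩ _ ⟨b, hb, rfl⟩
      refine ⟨a + b, hPN a ha b hb, ?_⟩
      rw [add_comm]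
      rfl
    · rintro ⟨n, hn, h⟩
      rw [AbG.val_eq_one] at h
      rw [h] at hn
      exact hP0 hn
    · intro a ha
      rcases hPtot (toAb hA a ha) with h | h | h
      · exact Or.inl ⟨_, h, rfl⟩
      · exact Or.inr (Or.inl ⟨_, h, rfl⟩)
      · exact Or.inr (Or.inr ⟨_, h, rfl⟩)
  obtain ⟨P₀, hP₀⟩ := hO.propRO
  have hres : RC E ⊥ (P₀ ∩ E) := by
    have := hP₀.restrict E
    rwa [bot_inf_eq] at this
  refine crossing (CC.of_relConvex hC hErc) hres hAE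
    (fun e _ n hn => (inferInstance : A.Normal).conj_mem n hn e) hRC ?_ hxE ?_
    (h := m.val) ⟨m, hCP ⟨1, 0, Or.inl h1S, Or.inr rfl, Or.inl h1S, ?_⟩, rfl⟩ (Or.inl ?_)
  · rintro e he _ ⟨n, hn, rfl⟩
    exact ⟨ρ e n, hPS _ (mem_opS he) n hn, rfl⟩
  · intro e he
    have h1 := hab x hxE e he
    rw [← QuotientGroup.eq_one_iff, QuotientGroup.mk_mul, QuotientGroup.mk_mul,
      QuotientGroup.mk_mul, QuotientGroup.mk_inv, QuotientGroup.mk_inv, h1]
    group
  · change m = m + 0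
    rw [add_zero]
  · refine ⟨ρ x m - (3 : ℤ) • m, hCP ⟨0, 1, Or.inr rfl, Or.inl h1S, Or.inr h1S, ?_⟩, ?_⟩
    · change _ = 0 + _
      rw [zero_add]
      rfl
    · rw [AbG.val_sub, AbG.val_zsmul, hρ, conjRep_val]
      group

end ConradExt
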