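import Pool.Agent.Lib.MP_7217b8_al.Minimal

/-!
A finitely generated group acting on an abelian group by locally unipotent automorphisms, with
iterated commutators acting trivially, acts nilpotently on each element.
-/

namespace ConradExt

variable {Y : Type*} [Group Y] {M : Type*} [AddCommGroup M] (ρ : Y →* AddMonoid.End M)

/-- `a` is moved into `T` by iterated application of the operators `x - 1`, `x ∈ X` -/
inductive Wd (X : Set Y) (T : AddSubgroup M) : M → Prop
  | base (a : M) : a ∈ T → Wd X T a
  | step (a : M) : (∀ x ∈ X, Wd X T (ρ x a - a)) → Wd X T a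

variable {ρ}

theorem Wd.trans {X : Set Y} {T T' : AddSubgroup M} {a : M} (h : Wd ρ X T' a)
    (h' : ∀ u ∈ T', Wd ρ X T u) : Wd ρ X T a := by
  induction h with
  | base a ha => exact h' a ha
  | step a _ ih => exact Wd.step a ih

/-- the chain of kernels of powers of `z - 1` modulo `T` -/
def chainK (ρ : Y →* AddMonoid.End M) (z : Y) (S T : AddSubgroup M) : ℕ → AddSubgroup M
  | 0 => T
  | k + 1 => S ⊓ (chainK ρ z S T k).comap (ρ z - 1)

theorem mem_chainK_succ {z : Y} {S T : AddSubgroup M} {k : ℕ} {s : M} :
    s ∈ chainK ρ z S T (k + 1) ↔ s ∈ S ∧ ρ z s - s ∈ chainK ρ z S T k := Iff.rfl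

theorem rho_mul (a b : Y) (m : M) : ρ (a * b) m = ρ a (ρ b m) := by
  rw [map_mul]
  rfl

theorem rho_inv_self (a : Y) (m : M) : ρ a⁻¹ (ρ a m) = m := by
  rw [← rho_mul, inv_mul_cancel, map_one]
  rfl

theorem rho_self_inv (a : Y) (m : M) : ρ a (ρ a⁻¹ m) = m := by
  rw [← rho_mul, mul_inv_cancel, map_one]
  rfl

theorem ul (X : Set Y) (hX : X.Finite)
    (hu : ∀ z ∈ Subgroup.closure X, ∀ a : M, ∃ k : ℕ, ((ρ z - 1) ^ k) a = 0) (n : ℕ) :
    ∀ S T : AddSubgroup M, T ≤ S → (∀ g ∈ Subgroup.closure X, ∀ s ∈ S, ρ g s ∈ S) →
      (∀ g ∈ Subgroup.closure X, ∀ s ∈ T, ρ g s ∈ T) →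
      (∀ z ∈ cs X n, ∀ s ∈ S, ρ z s - s ∈ T) → ∀ s ∈ S, Wd ρ X T s := by
  induction n with
  | zero =>
    intro S T _ _ _ h s hs
    exact Wd.step s fun x hx => Wd.base _ (h x hx s hs)
  | succ n IHn =>
    have aux : ∀ L : List Y, ∀ S T : AddSubgroup M, T ≤ S →
        (∀ g ∈ Subgroup.closure X, ∀ s ∈ S, ρ g s ∈ S) →
        (∀ g ∈ Subgroup.closure X, ∀ s ∈ T, ρ g s ∈ T) →
        (∀ z ∈ cs X (n + 1), ∀ s ∈ S, ρ z s - s ∈ T) →
        (∀ z ∈ cs X n, z ∉ L → ∀ s ∈ S, ρ z s - s ∈ T) → ∀ s ∈ S, Wd ρ X T s := by
      intro L
      induction L with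
      | nil =>
        intro S T hTS hS hT _ h2 s hs
        exact IHn S T hTS hS hT (fun z hz => h2 z hz (by simp)) s hs
      | cons z L IHL =>
        intro S T hTS hS hT h1 h2
        by_cases hz : z ∈ cs X n
        · have hzc : z ∈ Subgroup.closure X := cs_subset_closure X n hz
          -- `z` commutes with the closure of `X` modulo `T`
          have hcomm : ∀ g ∈ Subgroup.closure X, ∀ s ∈ S, ρ z (ρ g s) - ρ g (ρ z s) ∈ T := by
            intro g hg
            induction hg using Subgroup.closure_induction with
            | mem x hx =>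
              intro s hs
              have hxc : x ∈ Subgroup.closure X := Subgroup.subset_closure hx
              have h3 := h1 (x * z * x⁻¹ * z⁻¹) ⟨x, hx, z, hz, rfl⟩ (ρ z (ρ x s))
                (hS z hzc _ (hS x hxc s hs))
              rw [← rho_mul, ← rho_mul] at h3
              have e : x * z * x⁻¹ * z⁻¹ * z * x = x * z := by group
              rw [e] at h3
              have h4 := T.neg_mem h3
              rw [rho_mul, neg_sub] at h4
              exact h4
            | one =>
              intro s hs
              rw [map_one]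
              change ρ z s - ρ z s ∈ T
              rw [sub_self]
              exact T.zero_mem
            | mul g g' hg hg' ih ih' =>
              intro s hs
              have h3 := ih (ρ g' s) (hS g' hg' s hs)
              have h4 := hT g hg _ (ih' s hs)
              rw [map_sub] at h4
              have h5 := T.add_mem h3 h4
              rw [rho_mul, rho_mul]
              have e : ρ z (ρ g (ρ g' s)) - ρ g (ρ z (ρ g' s)) +
                (ρ g (ρ z (ρ g' s)) - ρ g (ρ g' (ρ z s))) =
                ρ z (ρ g (ρ g' s)) - ρ g (ρ g' (ρ z s)) := by abel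
              rwa [e] at h5
            | inv g hg ih =>
              intro s hs
              have hgi := (Subgroup.closure X).inv_mem hg
              have h3 := hT g⁻¹ hgi _ (T.neg_mem (ih (ρ g⁻¹ s) (hS g⁻¹ hgi s hs)))
              rw [neg_sub, map_sub, rho_inv_self, rho_self_inv] at h3
              exact h3
          have hch : ∀ k, T ≤ chainK ρ z S T k ∧ chainK ρ z S T k ≤ S ∧
              ∀ g ∈ Subgroup.closure X, ∀ s ∈ chainK ρ z S T k, ρ g s ∈ chainK ρ z S T k := by
            intro k
            induction k with
            | zero => exact ⟨le_rfl, hTS, hT⟩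
            | succ k ihk =>
              refine ⟨?_, ?_, ?_⟩
              · intro t ht
                rw [mem_chainK_succ]
                exact ⟨hTS ht, ihk.1 (T.sub_mem (hT z hzc t ht) ht)⟩
              · intro t ht
                exact (mem_chainK_succ.1 ht).1
              · intro g hg s hs
                rw [mem_chainK_succ] at hs ⊢
                refine ⟨hS g hg s hs.1, ?_⟩
                have h3 := ihk.1 (hcomm g hg s hs.1)
                have h4 := ihk.2.2 g hg _ hs.2
                rw [map_sub] at h4
                have h5 := (chainK ρ z S T k).add_mem h3 h4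
                have e : ρ z (ρ g s) - ρ g (ρ z s) + (ρ g (ρ z s) - ρ g s) =
                  ρ z (ρ g s) - ρ g s := by abel
                rwa [e] at h5
          have hWd : ∀ k, ∀ s ∈ chainK ρ z S T k, Wd ρ X T s := by
            intro k
            induction k with
            | zero => exact fun s hs => Wd.base s hs
            | succ k ihk =>
              intro s hs
              have hle : chainK ρ z S T k ≤ chainK ρ z S T (k + 1) := by
                intro t ht
                rw [mem_chainK_succ]
                exact ⟨(hch k).2.1 ht, AddSubgroup.sub_mem _ ((hch k).2.2 z hzc t ht) ht⟩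
              have h3 := IHL (chainK ρ z S T (k + 1)) (chainK ρ z S T k) hle (hch (k + 1)).2.2
                (hch k).2.2
                (fun z' hz' t ht => (hch k).1 (h1 z' hz' t ((hch (k + 1)).2.1 ht)))
                (fun z' hz' hz'L t ht => by
                  by_cases hzz : z' = z
                  · subst hzz
                    exact (mem_chainK_succ.1 ht).2
                  · exact (hch k).1 (h2 z' hz' (by simp [hzz, hz'L]) t ((hch (k + 1)).2.1 ht)))
                s hs
              exact h3.trans ihk
          have hmem : ∀ k, ∀ s ∈ S, ((ρ z - 1) ^ k) s = 0 → s ∈ chainK ρ z S T k := by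
            intro k
            induction k with
            | zero =>
              intro s _ h0
              rw [pow_zero] at h0
              have : s = 0 := h0
              rw [this]
              exact AddSubgroup.zero_mem _
            | succ k ihk =>
              intro s hs h0
              rw [mem_chainK_succ]
              refine ⟨hs, ihk _ (S.sub_mem (hS z hzc s hs) hs) ?_⟩
              rw [pow_succ] at h0
              exact h0
          intro s hs
          obtain ⟨k, hk⟩ := hu z hzc s
          exact hWd k s (hmem k s hs hk)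
        · refine IHL S T hTS hS hT h1 fun z' hz' hz'L => h2 z' hz' ?_
          intro hmem
          rcases List.mem_cons.1 hmem with h | h
          · exact hz (h ▸ hz')
          · exact hz'L h
    intro S T hTS hS hT h
    obtain ⟨L, hL⟩ : ∃ L : List Y, ∀ z ∈ cs X n, z ∈ L :=
      ⟨(cs_finite hX n).toFinset.toList, fun z hz => by simpa using hz⟩
    exact aux L S T hTS hS hT h (fun z hz hzL => absurd (hL z hz) hzL)

/-- all words of length `N` in the operators `x - 1` kill `a` -/
def wk (ρ : Y →* AddMonoid.End M) (X : Set Y) : ℕ → M → Prop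
  | 0, a => a = 0
  | N + 1, a => ∀ x ∈ X, wk ρ X N (ρ x a - a)

theorem wk_succ {X : Set Y} {N : ℕ} : ∀ {a : M}, wk ρ X N a → wk ρ X (N + 1) a := by
  induction N with
  | zero =>
    intro a h x _
    have h' : a = 0 := h
    change ρ x a - a = 0
    rw [h', map_zero, sub_zero]
  | succ N ih =>
    intro a h x hx
    exact ih (h x hx)

theorem wk_mono {X : Set Y} {N N' : ℕ} (hN : N ≤ N') {a : M} (h : wk ρ X N a) : wk ρ X N' a := by
  induction hN with
  | refl => exact h
  | step _ ih => exact wk_succ ih

theorem exists_wk {X : Set Y} (hX : X.Finite) {a : M} (h : Wd ρ X ⊥ a) : ∃ N, wk ρ X N a := by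
  induction h with
  | base a ha => exact ⟨0, by rwa [AddSubgroup.mem_bot] at ha⟩
  | step a _ ih =>
    choose! N hN using ih
    refine ⟨hX.toFinset.sup N + 1, fun x hx => wk_mono ?_ (hN x hx)⟩
    exact Finset.le_sup (f := N) (by simpa using hx)

end ConradExt
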